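import Pool.Agent.Helper46.FrG.Vit
import Pool.Agent.Helper31.LS.BlockE

set_option autoImplicit false

open MeasureTheory Filter Topology

namespace Pool.Agent.Helper46.FrG

open Pool.Agent.Helper42.Fr

variable {ρ C : ℝ} {h : ℝ → ℝ} {vh : ℝ × ℝ → ℝ}

/-- BLOCK G: every limit along the trajectory is independent of the first variable. -/
theorem blockG (hh : IndH ρ C h) (hT : Traj ρ C h vh)
    {X : ℕ → ℝ} (hX : Tendsto X atTop atTop) {v : ℝ × ℝ → ℝ} (hv : InC ρ C h v)
    (hc : ConvD (fun j => shift (X j) vh) v) : ∀ x t, v (x, t) = v (0, t) := by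
  have hne : ∃ x, eta x ≠ 0 := by
    by_contra hcon
    push Not at hcon
    have h1 := eta_int
    simp [hcon] at h1
  refine main hh hT (fun κ => blockA_mod hh eta_cut κ) (blockA_A3 hh eta_cut)
    (fun κ k hk hk0 v hv => blockA_mono hh hk hk0 eta_cut hv)
    (fun v hv hcc => blockA_rigid hh eta_cut hne hv hcc) ?_ hX hv hc
  exact Pool.Agent.Helper31.LS.blockE hh

end Pool.Agent.Helper46.FrG
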