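import Pool.Agent.Helper42.Fr.Mono

set_option autoImplicit false

open MeasureTheory Filter Topology

namespace Pool.Agent.Helper46.FrG

open Pool.Agent.Helper42.Fr

variable {ρ : ℝ}

lemma cont_KK {k : ℝ → ℝ} (hk : Continuous k) : Continuous (KK k) :=
  intervalIntegral.continuous_primitive (fun a b => hk.intervalIntegrable a b) 0

lemma cont_Theta {k : ℝ → ℝ} (hk : Continuous k) :
    Continuous (fun z : ℝ × ℝ => Theta ρ k z.1 z.2) := by
  unfold Theta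
  refine continuous_const.mul ?_
  refine intervalIntegral.continuous_parametric_intervalIntegral_of_continuous
    (f := fun (z : ℝ × ℝ) (τ : ℝ) => k ((z.1 ^ 2 + τ ^ 2) / ρ ^ 2)) ?_ continuous_snd
  show Continuous fun y : (ℝ × ℝ) × ℝ => k ((y.1.1 ^ 2 + y.2 ^ 2) / ρ ^ 2)
  fun_prop

lemma cont_Fden {k : ℝ → ℝ} (hk : Continuous k) :
    Continuous (fun z : ℝ × ℝ × ℝ => Fden ρ k z.1 z.2.1 z.2.2) := by
  unfold Fden
  have h1 : Continuous fun z : ℝ × ℝ × ℝ => KK k ((z.1 ^ 2 + z.2.1 ^ 2) / ρ ^ 2) :=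
    (cont_KK hk).comp (by fun_prop)
  have h2 : Continuous fun z : ℝ × ℝ × ℝ => Theta ρ k z.1 z.2.1 :=
    (cont_Theta (ρ := ρ) hk).comp (g := fun z : ℝ × ℝ => Theta ρ k z.1 z.2)
      (f := fun z : ℝ × ℝ × ℝ => ((z.1, z.2.1) : ℝ × ℝ)) (by fun_prop)
  have h3 : Continuous fun z : ℝ × ℝ × ℝ => z.2.2 := by fun_prop
  exact (continuous_const.mul h1).add (h2.mul h3)

lemma cont_FF {k : ℝ → ℝ} (hk : Continuous k) {u : ℝ × ℝ → ℝ} (hu : Sm u) :
    Continuous (FF ρ k u) := by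
  unfold FF
  have h1 := hu.cont
  have h2 := hu.dX.cont
  have h3 := hu.dT.cont
  have h4 := hu.dX.dT.cont
  exact (cont_Fden (ρ := ρ) hk).comp (g := fun z : ℝ × ℝ × ℝ => Fden ρ k z.1 z.2.1 z.2.2)
    (f := fun z => (ρ * u z + dX u z, dT u z, ρ * dT u z + dT (dX u) z)) (by fun_prop)

lemma tendsto_three {ι : Type*} {l : Filter ι} {p q r : ι → ℝ} {p0 q0 r0 : ℝ}
    (F : ℝ → ℝ → ℝ → ℝ) (hF : Continuous (fun z : ℝ × ℝ × ℝ => F z.1 z.2.1 z.2.2))
    (hp : Tendsto p l (𝓝 p0)) (hq : Tendsto q l (𝓝 q0)) (hr : Tendsto r l (𝓝 r0)) :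
    Tendsto (fun i => F (p i) (q i) (r i)) l (𝓝 (F p0 q0 r0)) := by
  have h1 := hF.tendsto (p0, q0, r0)
  have h2 : Tendsto (fun i => (p i, q i, r i)) l (𝓝 (p0, q0, r0)) :=
    hp.prodMk_nhds (hq.prodMk_nhds hr)
  exact h1.comp h2

lemma Fden_tendsto {k : ℝ → ℝ} (hk : Continuous k) {ι : Type*} {l : Filter ι} {p q r : ι → ℝ}
    {p0 q0 r0 : ℝ} (hp : Tendsto p l (𝓝 p0)) (hq : Tendsto q l (𝓝 q0)) (hr : Tendsto r l (𝓝 r0)) :
    Tendsto (fun i => Fden ρ k (p i) (q i) (r i)) l (𝓝 (Fden ρ k p0 q0 r0)) :=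
  tendsto_three (Fden ρ k) (cont_Fden hk) hp hq hr

lemma Fden_bdd {k : ℝ → ℝ} (hk : Continuous k) (B : ℝ) :
    ∃ M : ℝ, ∀ p q r : ℝ, |p| ≤ B → |q| ≤ B → |r| ≤ B → |Fden ρ k p q r| ≤ M := by
  have hK : IsCompact (Set.Icc (-B) B ×ˢ Set.Icc (-B) B ×ˢ Set.Icc (-B) B : Set (ℝ × ℝ × ℝ)) :=
    isCompact_Icc.prod (isCompact_Icc.prod isCompact_Icc)
  obtain ⟨M, hM⟩ := hK.exists_bound_of_continuousOn (cont_Fden (ρ := ρ) hk).continuousOn
  refine ⟨M, fun p q r hp hq hr => ?_⟩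
  have := hM (p, q, r) ⟨abs_le.1 hp, abs_le.1 hq, abs_le.1 hr⟩
  rwa [Real.norm_eq_abs] at this

lemma cx_Lam {k χ : ℝ → ℝ} (hk : Continuous k) (hχ : IsCut χ) {u : ℝ × ℝ → ℝ} (hu : Sm u) :
    CX (fun z => χ z.1 * FF ρ k u z) :=
  (CX.of_fst hχ.cpt hχ.smooth.continuous).mul (cont_FF hk hu)

lemma Lam_eq_J {k χ : ℝ → ℝ} (hk : Continuous k) (hχ : IsCut χ) {u : ℝ × ℝ → ℝ} (hu : Sm u) :
    Lam ρ k χ u = J (fun z => χ z.1 * FF ρ k u z) := by
  rw [J_eq (cx_Lam hk hχ hu)]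
  rfl

/-- the compact rectangle. -/
def KR (R : ℝ) : Set (ℝ × ℝ) := Set.Icc (-R) R ×ˢ Set.Icc (0 : ℝ) (2 * Real.pi)

lemma isCompact_KR (R : ℝ) : IsCompact (KR R) := isCompact_Icc.prod isCompact_Icc

lemma ae_KR {R : ℝ} {F : ℝ × ℝ → ℝ} (hF : ∀ x t, R < |x| → F (x, t) = 0) :
    ∀ᵐ z ∂mu2, z ∉ KR R → F z = 0 := by
  filter_upwards [mu2_ae] with z hz hzn
  have : R < |z.1| := by
    by_contra hcon
    push Not at hcon
    exact hzn ⟨abs_le.1 hcon, Set.Ioc_subset_Icc_self hz⟩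
  exact hF z.1 z.2 this

lemma J_eq_set {R : ℝ} {F : ℝ × ℝ → ℝ} (hF : ∀ x t, R < |x| → F (x, t) = 0) :
    J F = ∫ z in KR R, F z ∂mu2 := by
  unfold J
  symm
  exact setIntegral_eq_integral_of_ae_compl_eq_zero (ae_KR hF)

/-- dominated convergence on the strip. -/
lemma J_tendsto {ι : Type*} {l : Filter ι} [l.IsCountablyGenerated] {F : ι → ℝ × ℝ → ℝ}
    {G : ℝ × ℝ → ℝ} (R B : ℝ) (hF : ∀ᶠ i in l, Continuous (F i))
    (hFs : ∀ᶠ i in l, ∀ x t, R < |x| → F i (x, t) = 0)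
    (hb : ∀ᶠ i in l, ∀ x t, |x| ≤ R → t ∈ Set.Icc (0 : ℝ) (2 * Real.pi) → |F i (x, t)| ≤ B)
    (hlim : ∀ x t, Tendsto (fun i => F i (x, t)) l (𝓝 (G (x, t)))) :
    Tendsto (fun i => J (F i)) l (𝓝 (J G)) := by
  unfold J
  refine tendsto_integral_filter_of_dominated_convergence
    ((KR R).indicator fun _ => |B|) ?_ ?_ ?_ ?_
  · filter_upwards [hF] with i hi
    exact hi.aestronglyMeasurable
  · filter_upwards [hFs, hb] with i hi hib
    filter_upwards [mu2_ae, ae_KR hi] with z hz hzR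
    by_cases hK : z ∈ KR R
    · rw [Set.indicator_of_mem hK, Real.norm_eq_abs]
      exact (hib z.1 z.2 (abs_le.2 hK.1) hK.2).trans (le_abs_self _)
    · rw [Set.indicator_of_notMem hK, hzR hK]
      simp
  · rw [integrable_indicator_iff (isCompact_KR R).measurableSet]
    exact continuous_const.continuousOn.integrableOn_compact (isCompact_KR R)
  · exact Eventually.of_forall fun z => hlim z.1 z.2

/-- continuity of translated averages. -/
lemma J_shift_cont {χ : ℝ → ℝ} (hχ : IsCut χ) {G : ℝ × ℝ → ℝ} (hG : Continuous G) :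
    Continuous (fun X : ℝ => J (fun z => χ z.1 * G (z.1 + X, z.2))) := by
  obtain ⟨R, hR⟩ := XS.of_fst hχ.cpt
  have e : (fun X : ℝ => J (fun z => χ z.1 * G (z.1 + X, z.2)))
      = fun X : ℝ => ∫ z in KR R, χ z.1 * G (z.1 + X, z.2) ∂mu2 := by
    funext X
    apply J_eq_set
    intro x t hx
    have := hR x t hx
    simp only at this
    simp [this]
  rw [e]
  refine continuous_parametric_integral_of_continuous (μ := mu2)
    (f := fun (X : ℝ) (z : ℝ × ℝ) => χ z.1 * G (z.1 + X, z.2)) ?_ (isCompact_KR R)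
  have h1 := hχ.smooth.continuous
  show Continuous fun y : ℝ × (ℝ × ℝ) => χ y.2.1 * G (y.2.1 + y.1, y.2.2)
  fun_prop

lemma FF_shift {k : ℝ → ℝ} {u : ℝ × ℝ → ℝ} (hu : Sm u) (X : ℝ) :
    FF ρ k (shift X u) = shift X (FF ρ k u) := by
  funext z
  unfold FF
  rw [dX_shift hu, dT_shift hu, dT_shift hu.dX]
  rfl

lemma Lam_shift_cont {k χ : ℝ → ℝ} (hk : Continuous k) (hχ : IsCut χ) {u : ℝ × ℝ → ℝ}
    (hu : Sm u) : Continuous (fun X => Lam ρ k χ (shift X u)) := by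
  have e : (fun X => Lam ρ k χ (shift X u))
      = fun X : ℝ => J (fun z => χ z.1 * FF ρ k u (z.1 + X, z.2)) := by
    funext X
    rw [Lam_eq_J hk hχ (hu.shift X), FF_shift hu]
    rfl
  rw [e]
  exact J_shift_cont hχ (cont_FF hk hu)

/-- (G0) continuity along mollified trajectories. -/
theorem cont_traj {k χ : ℝ → ℝ} (hk : Continuous k) (hχ : IsCut χ) {vh : ℝ × ℝ → ℝ}
    (hL : LocallyIntegrable vh) {ε : ℝ} (hε : 0 < ε) :
    Continuous (fun X => Lam ρ k χ (moll ε (shift X vh))) := by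
  have : (fun X => Lam ρ k χ (moll ε (shift X vh)))
      = fun X => Lam ρ k χ (shift X (moll ε vh)) := by
    funext X
    rw [moll_shift]
  rw [this]
  exact Lam_shift_cont hk hχ (moll_smooth hε hL)

end Pool.Agent.Helper46.FrG
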