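import Pool.Agent.Helper46.FrG.Lim

set_option autoImplicit false

open MeasureTheory Filter Topology

namespace Pool.Agent.Helper46.FrG

open Pool.Agent.Helper42.Fr

variable {ρ C : ℝ} {h : ℝ → ℝ}

lemma Lst_smooth (ρ : ℝ) {φ : ℝ × ℝ → ℝ} (hφ : Sm φ) : Sm (Lst ρ φ) := by
  have : Sm (fun z => dX (dX φ) z + dT (dT φ) z - 2 * ρ * dX φ z + ρ ^ 2 * φ z) :=
    ((hφ.dX.dX.add hφ.dT.dT).sub (hφ.dX.const_mul (2 * ρ))).add (hφ.const_mul (ρ ^ 2))
  exact this

lemma cpt_Lst (ρ : ℝ) {g : ℝ × ℝ → ℝ} (h : HasCompactSupport g) : HasCompactSupport (Lst ρ g) := by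
  have h1 : HasCompactSupport
      (fun z => dX (dX g) z + dT (dT g) z + (-(2 * ρ)) * dX g z + ρ ^ 2 * g z) :=
    (((cpt_dX (cpt_dX h)).add (cpt_dT (cpt_dT h))).add
      ((cpt_dX h).mul_left (f := fun _ => -(2 * ρ)))).add (h.mul_left (f := fun _ => ρ ^ 2))
  have e : Lst ρ g
      = fun z => dX (dX g) z + dT (dT g) z + (-(2 * ρ)) * dX g z + ρ ^ 2 * g z := by
    funext z; unfold Lst; ring
  rw [e]; exact h1

/-- bounded pointwise convergence implies convergence against test functions. -/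
lemma conv_of_pointwise {ι : Type*} {l : Filter ι} [l.IsCountablyGenerated]
    {vs : ι → ℝ × ℝ → ℝ} {v : ℝ × ℝ → ℝ} {C : ℝ} (hm : ∀ᶠ i in l, Continuous (vs i))
    (hb : ∀ᶠ i in l, ∀ z, |vs i z| ≤ C) (hc : ∀ z, Tendsto (fun i => vs i z) l (𝓝 (v z)))
    (ψ : ℝ × ℝ → ℝ) (hψ : Continuous ψ) (hψc : HasCompactSupport ψ) :
    Tendsto (fun i => ∫ z, vs i z * ψ z) l (𝓝 (∫ z, v z * ψ z)) := by
  have hI : Integrable ψ := hψ.integrable_of_hasCompactSupport hψc
  refine tendsto_integral_filter_of_dominated_convergence (fun z => C * |ψ z|) ?_ ?_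
    (hI.abs.const_mul C) (Eventually.of_forall fun z => (hc z).mul_const _)
  · filter_upwards [hm] with i hi
    exact (hi.mul hψ).aestronglyMeasurable
  · filter_upwards [hb] with i hi
    refine Eventually.of_forall fun z => ?_
    rw [Real.norm_eq_abs, abs_mul]
    exact mul_le_mul_of_nonneg_right (hi z) (abs_nonneg _)

/-- equi-Lipschitz functions converging pointwise converge uniformly on compact sets. -/
lemma unif_of_pointwise {vs : ℕ → ℝ × ℝ → ℝ} {v : ℝ × ℝ → ℝ} {C : ℝ} (hC : 0 ≤ C)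
    (hl : ∀ j, ∀ z w : ℝ × ℝ, |vs j z - vs j w| ≤ C * (|z.1 - w.1| + |z.2 - w.2|))
    (hlv : ∀ z w : ℝ × ℝ, |v z - v w| ≤ C * (|z.1 - w.1| + |z.2 - w.2|))
    (hc : ∀ z, Tendsto (fun j => vs j z) atTop (𝓝 (v z))) {K : Set (ℝ × ℝ)} (hK : IsCompact K)
    {c : ℝ} (hcp : 0 < c) : ∀ᶠ j in atTop, ∀ z ∈ K, |vs j z - v z| < c := by
  have he : 0 < c / (8 * (C + 1)) := by positivity
  obtain ⟨t, -, htf, hcov⟩ := hK.finite_cover_balls he
  have h1 : ∀ᶠ j in atTop, ∀ x ∈ t, |vs j x - v x| < c / 4 := by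
    rw [eventually_all_finite htf]
    intro x _
    have := (hc x).eventually (Metric.ball_mem_nhds (v x) (show (0 : ℝ) < c / 4 by positivity))
    filter_upwards [this] with j hj
    rwa [Real.dist_eq] at hj
  filter_upwards [h1] with j hj z hz
  obtain ⟨x, hx, hzx⟩ := Set.mem_iUnion₂.1 (hcov hz)
  rw [Metric.mem_ball, Prod.dist_eq, max_lt_iff, Real.dist_eq, Real.dist_eq] at hzx
  have hlz : C * (|z.1 - x.1| + |z.2 - x.2|) ≤ c / 4 := by
    have : |z.1 - x.1| + |z.2 - x.2| ≤ 2 * (c / (8 * (C + 1))) := by linarith [hzx.1, hzx.2]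
    calc C * (|z.1 - x.1| + |z.2 - x.2|) ≤ (C + 1) * (2 * (c / (8 * (C + 1)))) := by
          refine mul_le_mul (by linarith) this (by positivity) (by positivity)
      _ = c / 4 := by field_simp; ring
  have a1 := (hl j z x).trans hlz
  have a2 := (hlv z x).trans hlz
  have a3 := hj x hx
  rw [abs_sub_lt_iff] at a3 ⊢
  rw [abs_sub_le_iff] at a1 a2
  constructor <;> linarith [a1.1, a1.2, a2.1, a2.2, a3.1, a3.2]

theorem exists_subseq_pointwise {C : ℝ} (hC : 0 ≤ C) (vs : ℕ → ℝ × ℝ → ℝ)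
    (hb : ∀ j z, |vs j z| ≤ C)
    (hl : ∀ j, ∀ z w : ℝ × ℝ, |vs j z - vs j w| ≤ C * (|z.1 - w.1| + |z.2 - w.2|)) :
    ∃ φ : ℕ → ℕ, StrictMono φ ∧ ∃ v : ℝ × ℝ → ℝ, ∀ z, Tendsto (fun j => vs (φ j) z) atTop (𝓝 (v z)) := by
  have hK : IsCompact (Set.pi Set.univ (fun _ : ℚ × ℚ => Set.Icc (-C) C)) :=
    isCompact_univ_pi fun _ => isCompact_Icc
  obtain ⟨a, -, φ, hφ, ha⟩ := hK.tendsto_subseq
    (x := fun (j : ℕ) (q : ℚ × ℚ) => vs j ((q.1 : ℝ), (q.2 : ℝ)))
    (fun j q _ => abs_le.1 (hb j _))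
  refine ⟨φ, hφ, ?_⟩
  have hq : ∀ q : ℚ × ℚ, Tendsto (fun j => vs (φ j) ((q.1 : ℝ), (q.2 : ℝ))) atTop (𝓝 (a q)) :=
    fun q => (tendsto_pi_nhds.1 ha) q
  have hcau : ∀ z : ℝ × ℝ, ∃ b, Tendsto (fun j => vs (φ j) z) atTop (𝓝 b) := by
    intro z
    apply cauchySeq_tendsto_of_complete
    rw [Metric.cauchySeq_iff']
    intro e he
    have hd : 0 < e / (8 * (C + 1)) := by positivity
    obtain ⟨q1, h1a, h1b⟩ := exists_rat_btwn (show z.1 < z.1 + e / (8 * (C + 1)) by linarith)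
    obtain ⟨q2, h2a, h2b⟩ := exists_rat_btwn (show z.2 < z.2 + e / (8 * (C + 1)) by linarith)
    have hlz : ∀ j, |vs j z - vs j ((q1 : ℝ), (q2 : ℝ))| ≤ e / 4 := by
      intro j
      refine (hl j _ _).trans ?_
      have : |z.1 - (q1 : ℝ)| + |z.2 - (q2 : ℝ)| ≤ 2 * (e / (8 * (C + 1))) := by
        have a1 : |z.1 - (q1 : ℝ)| ≤ e / (8 * (C + 1)) := by
          rw [abs_le]; constructor <;> linarith
        have a2 : |z.2 - (q2 : ℝ)| ≤ e / (8 * (C + 1)) := by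
          rw [abs_le]; constructor <;> linarith
        linarith
      calc C * (|z.1 - (q1 : ℝ)| + |z.2 - (q2 : ℝ)|) ≤ (C + 1) * (2 * (e / (8 * (C + 1)))) := by
            refine mul_le_mul (by linarith) this (by positivity) (by positivity)
        _ = e / 4 := by field_simp; ring
    have hc := (hq (q1, q2)).cauchySeq
    rw [Metric.cauchySeq_iff'] at hc
    obtain ⟨N, hN⟩ := hc (e / 4) (by positivity)
    refine ⟨N, fun n hn => ?_⟩
    have h3 := hN n hn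
    rw [Real.dist_eq] at h3 ⊢
    have a1 := hlz (φ n)
    have a2 := hlz (φ N)
    simp only at h3
    rw [abs_sub_lt_iff] at h3 ⊢
    rw [abs_sub_le_iff] at a1 a2
    constructor <;> linarith [a1.1, a1.2, a2.1, a2.2, h3.1, h3.2]
  choose v hv using hcau
  exact ⟨v, hv⟩

/-- pointwise limits of members of the class are members. -/
theorem InC_of_tendsto (hh : IndH ρ C h) {vs : ℕ → ℝ × ℝ → ℝ} (hvs : ∀ j, InC ρ C h (vs j))
    {v : ℝ × ℝ → ℝ} (hc : ∀ z, Tendsto (fun j => vs j z) atTop (𝓝 (v z))) : InC ρ C h v := by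
  have hC := hh.C_nonneg
  have hlip : ∀ z w : ℝ × ℝ, |v z - v w| ≤ C * (|z.1 - w.1| + |z.2 - w.2|) := fun z w =>
    le_of_tendsto ((hc z).sub (hc w)).abs (Eventually.of_forall fun j => (hvs j).lip z w)
  have hconv : ∀ ψ : ℝ × ℝ → ℝ, Continuous ψ → HasCompactSupport ψ →
      Tendsto (fun i => ∫ z, vs i z * ψ z) atTop (𝓝 (∫ z, v z * ψ z)) :=
    conv_of_pointwise (Eventually.of_forall fun j => (hvs j).cont)
      (Eventually.of_forall fun j => (hvs j).bdd) hc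
  refine ⟨?_, hlip, ?_, ?_, ?_, ?_⟩
  · intro z
    exact le_of_tendsto (hc z).abs (Eventually.of_forall fun j => (hvs j).bdd z)
  · intro x t
    refine tendsto_nhds_unique (hc (x, t + 2 * Real.pi)) ?_
    have := hc (x, t)
    refine this.congr fun j => ?_
    exact ((hvs j).per x t).symm
  · intro x t
    exact le_of_tendsto (hc (x, t)) (Eventually.of_forall fun j => (hvs j).le x t)
  · intro φ hφ h0
    exact ge_of_tendsto (hconv _ (Lst_smooth ρ hφ.smooth).cont (cpt_Lst ρ hφ.cpt))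
      (Eventually.of_forall fun j => (hvs j).sub φ hφ h0)
  · intro φ hφ h0 hs
    have hvc : Continuous v := by
      have : ∀ z, v z = v z := fun _ => rfl
      rw [continuous_iff_continuousAt]
      intro z
      rw [ContinuousAt, tendsto_iff_dist_tendsto_zero]
      have h1 : Tendsto (fun w : ℝ × ℝ => C * (|w.1 - z.1| + |w.2 - z.2|)) (𝓝 z) (𝓝 0) := by
        have : Continuous fun w : ℝ × ℝ => C * (|w.1 - z.1| + |w.2 - z.2|) := by fun_prop
        have h2 := this.tendsto z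
        simpa using h2
      refine squeeze_zero (fun _ => dist_nonneg) (fun w => ?_) h1
      rw [Real.dist_eq]
      exact hlip w z
    have hhc : Continuous h := by
      rw [continuous_iff_continuousAt]
      intro z
      rw [ContinuousAt, tendsto_iff_dist_tendsto_zero]
      have h1 : Tendsto (fun w : ℝ => C * |w - z|) (𝓝 z) (𝓝 0) := by
        have : Continuous fun w : ℝ => C * |w - z| := by fun_prop
        have h2 := this.tendsto z
        simpa using h2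
      refine squeeze_zero (fun _ => dist_nonneg) (fun w => ?_) h1
      rw [Real.dist_eq]
      exact hh.lip w z
    have hK : IsCompact (tsupport φ) := hφ.cpt
    by_cases hne : (tsupport φ).Nonempty
    · obtain ⟨z0, hz0, hmin⟩ := hK.exists_isMinOn hne
        (f := fun z : ℝ × ℝ => h z.2 - v z) ((hhc.comp continuous_snd).sub hvc).continuousOn
      have hcp : 0 < h z0.2 - v z0 := sub_pos.2 (hs hz0)
      have hun := unif_of_pointwise hC (fun j => (hvs j).lip) hlip hc hK hcp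
      have hz : ∀ᶠ j in atTop, ∫ z, vs j z * Lst ρ φ z = 0 := by
        filter_upwards [hun] with j hj
        refine (hvs j).harm φ hφ h0 ?_
        intro z hz
        have h1 := hj z hz
        have h2 : h z0.2 - v z0 ≤ h z.2 - v z := hmin hz
        rw [abs_sub_lt_iff] at h1
        show vs j z < h z.2
        linarith [h1.1]
      exact tendsto_nhds_unique (hconv _ (Lst_smooth ρ hφ.smooth).cont (cpt_Lst ρ hφ.cpt))
        (tendsto_const_nhds.congr' (hz.mono fun j hj => hj.symm))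
    · have hz : ∀ j, ∫ z, vs j z * Lst ρ φ z = 0 := by
        intro j
        refine (hvs j).harm φ hφ h0 ?_
        intro z hz
        exact absurd ⟨z, hz⟩ hne
      exact tendsto_nhds_unique (hconv _ (Lst_smooth ρ hφ.smooth).cont (cpt_Lst ρ hφ.cpt))
        (tendsto_const_nhds.congr fun j => (hz j).symm)

/-- the class is sequentially compact. -/
theorem compact_cls (hh : IndH ρ C h) (vs : ℕ → ℝ × ℝ → ℝ) (hvs : ∀ j, InC ρ C h (vs j)) :
    ∃ φ : ℕ → ℕ, StrictMono φ ∧ ∃ v, InC ρ C h v ∧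
      ∀ z, Tendsto (fun j => vs (φ j) z) atTop (𝓝 (v z)) := by
  obtain ⟨φ, hφ, v, hv⟩ := exists_subseq_pointwise hh.C_nonneg vs (fun j => (hvs j).bdd)
    (fun j => (hvs j).lip)
  exact ⟨φ, hφ, v, InC_of_tendsto hh (fun j => hvs (φ j)) hv, hv⟩

/-- the uniform modulus of block A. -/
def ModA (ρ C : ℝ) (h χ : ℝ → ℝ) : Prop := ∀ κ : ℝ, ∃ M : ℝ, ∀ k, KB κ k → ∀ v, InC ρ C h v →
  ∀ ε : ℝ, 0 < ε → ε < 1 → |Lam ρ k χ (moll ε v) - LamC ρ k χ v| ≤ M * Real.sqrt ε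

lemma locL1_bdd {ι : Type*} {l : Filter ι} {fs : ι → ℝ × ℝ → ℝ} {C : ℝ}
    (hm : ∀ i, Continuous (fs i)) (hb : ∀ i z, |fs i z| ≤ C) (R : ℝ) :
    ∃ M : ℝ, ∀ᶠ i in l, ∫ z in BX R, |fs i z| ≤ M := by
  refine ⟨∫ z in BX R, C, Eventually.of_forall fun i => ?_⟩
  refine setIntegral_mono_on ?_ ?_ (isCompact_BX R).measurableSet (fun z _ => hb i z)
  · exact (hm i).abs.continuousOn.integrableOn_compact (isCompact_BX R)
  · exact continuous_const.continuousOn.integrableOn_compact (isCompact_BX R)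

/-- continuity of the functional of the mollified function on the class. -/
theorem Lam_cont_cls {k χ : ℝ → ℝ} (hk : Continuous k) (hχ : IsCut χ)
    {vs : ℕ → ℝ × ℝ → ℝ} {v : ℝ × ℝ → ℝ}
    (hvs : ∀ j, InC ρ C h (vs j)) (hv : InC ρ C h v)
    (hc : ∀ z, Tendsto (fun j => vs j z) atTop (𝓝 (v z))) {ε : ℝ} (hε : 0 < ε) :
    Tendsto (fun j => Lam ρ k χ (moll ε (vs j))) atTop (𝓝 (Lam ρ k χ (moll ε v))) :=
  Lam_moll_tendsto hk hχ (Eventually.of_forall fun j => (hvs j).locInt) hv.locInt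
    (conv_of_pointwise (Eventually.of_forall fun j => (hvs j).cont)
      (Eventually.of_forall fun j => (hvs j).bdd) hc)
    (locL1_bdd (fun j => (hvs j).cont) (fun j => (hvs j).bdd)) hε

lemma exists_small_sqrt (M e : ℝ) (he : 0 < e) : ∃ ε : ℝ, 0 < ε ∧ ε < 1 ∧ M * Real.sqrt ε ≤ e := by
  have hcont : Continuous fun ε : ℝ => M * Real.sqrt ε := by fun_prop
  have h1 : Tendsto (fun ε : ℝ => M * Real.sqrt ε) (𝓝[>] 0) (𝓝 0) := by
    have := (hcont.tendsto 0).mono_left (nhdsWithin_le_nhds (s := Set.Ioi 0))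
    simpa using this
  have h2 : ∀ᶠ ε in 𝓝[>] (0 : ℝ), M * Real.sqrt ε < e := h1.eventually_lt_const he
  have h3 : ∀ᶠ ε in 𝓝[>] (0 : ℝ), ε ∈ Set.Ioo (0 : ℝ) 1 := Ioo_mem_nhdsGT (by norm_num)
  obtain ⟨ε, h4, h5⟩ := (h2.and h3).exists
  exact ⟨ε, h5.1, h5.2, h4.le⟩

/-- (A10 iii) -/
theorem contC {χ : ℝ → ℝ} (hM : ModA ρ C h χ) {k : ℝ → ℝ} {κ : ℝ} (hk : KB κ k) (hχ : IsCut χ)
    {vs : ℕ → ℝ × ℝ → ℝ} {v : ℝ × ℝ → ℝ}
    (hvs : ∀ j, InC ρ C h (vs j)) (hv : InC ρ C h v)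
    (hc : ∀ z, Tendsto (fun j => vs j z) atTop (𝓝 (v z))) :
    Tendsto (fun j => LamC ρ k χ (vs j)) atTop (𝓝 (LamC ρ k χ v)) := by
  obtain ⟨M, hM⟩ := hM κ
  rw [Metric.tendsto_atTop]
  intro e he
  obtain ⟨ε, h1, h2, h3⟩ := exists_small_sqrt M (e / 4) (by positivity)
  have h4 := Lam_cont_cls (ρ := ρ) (C := C) (h := h) hk.smooth.continuous hχ hvs hv hc h1
  rw [Metric.tendsto_atTop] at h4
  obtain ⟨N, hN⟩ := h4 (e / 4) (by positivity)
  refine ⟨N, fun n hn => ?_⟩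
  have a1 := (hM k hk (vs n) (hvs n) ε h1 h2).trans h3
  have a2 := (hM k hk v hv ε h1 h2).trans h3
  have a3 := hN n hn
  rw [Real.dist_eq] at a3 ⊢
  rw [abs_sub_lt_iff] at a3 ⊢
  rw [abs_sub_le_iff] at a1 a2
  constructor <;> linarith [a1.1, a1.2, a2.1, a2.2, a3.1, a3.2]

end Pool.Agent.Helper46.FrG
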