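import Pool.Agent.Helper46.FrG.Osc

set_option autoImplicit false

open MeasureTheory Filter Topology
open scoped Convolution

namespace Pool.Agent.Helper46.FrG

open Pool.Agent.Helper42.Fr

variable {ρ C : ℝ} {h : ℝ → ℝ}

/-- superposition of the thin bumps. -/
noncomputable def Kz (δ : ℝ) (ζ : ℝ → ℝ) (s : ℝ) : ℝ := ∫ t₀, ζ t₀ * kth δ t₀ s

/-- admissible densities. -/
structure Dens (ζ : ℝ → ℝ) : Prop where
  meas : Measurable ζ
  int : Integrable ζ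
  bdd : ∀ s, |ζ s| ≤ 1

lemma kth_cont2 (δ : ℝ) : Continuous fun p : ℝ × ℝ => kth δ p.1 p.2 := by
  unfold kth
  have := (etaS_smooth δ).continuous
  fun_prop

lemma Kz_eq (δ : ℝ) (ζ : ℝ → ℝ) :
    Kz δ ζ = fun s => 2 * (ζ ⋆[ContinuousLinearMap.mul ℝ ℝ, (volume : Measure ℝ)] etaS δ) s := by
  funext s
  unfold Kz kth
  rw [convolution_def]
  rw [← integral_const_mul]
  congr 1; funext t
  simp only [ContinuousLinearMap.mul_apply']
  ring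

lemma Kz_KB {δ : ℝ} (hδ : 0 < δ) {ζ : ℝ → ℝ} (hζ : Dens ζ) : ∃ κ, KB κ (Kz δ ζ) := by
  have hs := etaS_smooth δ
  have hc := etaS_cpt hδ
  have hI1 : Integrable (fun s => |etaS δ s|) :=
    (hs.continuous.integrable_of_hasCompactSupport hc).abs
  have hI2 : Integrable (fun s => |deriv (etaS δ) s|) :=
    ((hs.continuous_deriv (by simp)).integrable_of_hasCompactSupport hc.deriv).abs
  set B1 := ∫ s, |etaS δ s| with hB1
  set B2 := ∫ s, |deriv (etaS δ) s| with hB2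
  have conv_bound : ∀ f : ℝ → ℝ, Integrable (fun s => |f s|) → ∀ s,
      |(ζ ⋆[ContinuousLinearMap.mul ℝ ℝ, (volume : Measure ℝ)] f) s| ≤ ∫ s, |f s| := by
    intro f hf s
    rw [convolution_def]
    simp only [ContinuousLinearMap.mul_apply']
    rw [← integral_sub_left_eq_self (fun s => |f s|) volume s, ← Real.norm_eq_abs]
    refine norm_integral_le_of_norm_le (hf.comp_sub_left s) (Eventually.of_forall fun t => ?_)
    rw [norm_mul, Real.norm_eq_abs, Real.norm_eq_abs]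
    calc |ζ t| * |f (s - t)| ≤ 1 * |f (s - t)| :=
          mul_le_mul_of_nonneg_right (hζ.bdd t) (abs_nonneg _)
      _ = |f (s - t)| := one_mul _
  refine ⟨2 * max B1 B2, ?_, ?_, ?_⟩
  · rw [Kz_eq]
    exact contDiff_const.mul (hc.contDiff_convolution_right _ hζ.int.locallyIntegrable hs)
  · intro s
    rw [Kz_eq]
    simp only
    rw [abs_mul, abs_of_pos (by norm_num : (0 : ℝ) < 2)]
    have := (conv_bound _ hI1 s).trans (le_max_left B1 B2)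
    linarith
  · intro s
    have h1 := hc.hasDerivAt_convolution_right (ContinuousLinearMap.mul ℝ ℝ)
      (μ := (volume : Measure ℝ)) (f₀ := ζ) hζ.int.locallyIntegrable
      (hs.of_le (by exact_mod_cast le_top)) s
    have h2 := h1.const_mul 2
    have h3 : HasDerivAt (Kz δ ζ)
        (2 * (ζ ⋆[ContinuousLinearMap.mul ℝ ℝ, (volume : Measure ℝ)] deriv (etaS δ)) s) s := by
      rw [Kz_eq]; exact h2
    rw [h3.deriv, abs_mul, abs_of_pos (by norm_num : (0 : ℝ) < 2)]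
    have := (conv_bound _ hI2 s).trans (le_max_right B1 B2)
    linarith

lemma kth_bound {δ : ℝ} (hδ : 0 < δ) : ∃ B : ℝ, 0 ≤ B ∧ ∀ t₀ s, |kth δ t₀ s| ≤ B := by
  obtain ⟨κ, hκ⟩ := kth_KB hδ
  exact ⟨κ, (abs_nonneg _).trans ((hκ 0).b0 0), fun t₀ s => (hκ t₀).b0 s⟩

/-- swapping the superposition with a one-dimensional integral. -/
lemma swap1 {δ : ℝ} (hδ : 0 < δ) {ζ : ℝ → ℝ} (hζ : Dens ζ) {φ : ℝ → ℝ} (hφ : Continuous φ) (q : ℝ) :
    ∫ τ in (0 : ℝ)..q, Kz δ ζ (φ τ) = ∫ t₀, ζ t₀ * ∫ τ in (0 : ℝ)..q, kth δ t₀ (φ τ) := by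
  obtain ⟨B, hB0, hB⟩ := kth_bound hδ
  have e1 : ∀ t₀, ζ t₀ * ∫ τ in (0 : ℝ)..q, kth δ t₀ (φ τ)
      = (if (0 : ℝ) ≤ q then 1 else -1 : ℝ) * ∫ τ in Set.uIoc 0 q, ζ t₀ * kth δ t₀ (φ τ) := by
    intro t₀
    rw [intervalIntegral.intervalIntegral_eq_integral_uIoc, smul_eq_mul, integral_const_mul]
    ring
  simp_rw [e1]
  rw [integral_const_mul, intervalIntegral.intervalIntegral_eq_integral_uIoc, smul_eq_mul]
  congr 1
  unfold Kz
  rw [integral_integral_swap]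
  have hm : AEStronglyMeasurable (Function.uncurry fun τ t₀ => ζ t₀ * kth δ t₀ (φ τ))
      ((volume.restrict (Set.uIoc 0 q)).prod volume) := by
    apply Measurable.aestronglyMeasurable
    have h1 : Measurable fun p : ℝ × ℝ => ζ p.2 := hζ.meas.comp measurable_snd
    have h2 : Continuous fun p : ℝ × ℝ => kth δ p.2 (φ p.1) :=
      (kth_cont2 δ).comp (g := fun p : ℝ × ℝ => kth δ p.1 p.2)
        (f := fun p : ℝ × ℝ => ((p.2, φ p.1) : ℝ × ℝ)) (by fun_prop)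
    exact h1.mul h2.measurable
  have hfin : IsFiniteMeasure ((volume : Measure ℝ).restrict (Set.uIoc 0 q)) := by
    constructor
    rw [Measure.restrict_apply_univ, Set.uIoc]
    exact measure_Ioc_lt_top
  have hi : Integrable (fun p : ℝ × ℝ => B * |ζ p.2|)
      (((volume : Measure ℝ).restrict (Set.uIoc 0 q)).prod volume) :=
    (integrable_const B).mul_prod hζ.int.abs
  refine hi.mono' hm (Eventually.of_forall fun p => ?_)
  show ‖ζ p.2 * kth δ p.2 (φ p.1)‖ ≤ _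
  rw [norm_mul, Real.norm_eq_abs, Real.norm_eq_abs, mul_comm]
  exact mul_le_mul_of_nonneg_right (hB _ _) (abs_nonneg _)

lemma KK_abs_le {κ : ℝ} {k : ℝ → ℝ} (hk : KB κ k) (s : ℝ) : |KK k s| ≤ κ * |s| := by
  have := intervalIntegral.norm_integral_le_of_norm_le_const (a := 0) (b := s) (f := k) (C := κ)
    (fun x _ => hk.b0 x)
  simpa [KK] using this

lemma Theta_abs_le (hρ : 0 < ρ) {κ : ℝ} {k : ℝ → ℝ} (hk : KB κ k) (p q : ℝ) :
    |Theta ρ k p q| ≤ (ρ ^ 2)⁻¹ * (κ * |q|) := by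
  have := intervalIntegral.norm_integral_le_of_norm_le_const (a := 0) (b := q)
    (f := fun τ => k ((p ^ 2 + τ ^ 2) / ρ ^ 2)) (C := κ) (fun x _ => hk.b0 _)
  unfold Theta
  rw [abs_mul, abs_of_pos (by positivity : 0 < (ρ ^ 2)⁻¹)]
  refine mul_le_mul_of_nonneg_left ?_ (by positivity)
  simpa using this

lemma Fden_bdd_KB (hρ : 0 < ρ) (κ B : ℝ) : ∃ M : ℝ, ∀ k, KB κ k → ∀ p q r : ℝ, |p| ≤ B →
    |q| ≤ B → |r| ≤ B → |Fden ρ k p q r| ≤ M := by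
  refine ⟨ρ / 2 * (κ * ((B ^ 2 + B ^ 2) / ρ ^ 2)) + (ρ ^ 2)⁻¹ * (κ * B) * B,
    fun k hk p q r hp hq hr => ?_⟩
  have hκ0 : 0 ≤ κ := (abs_nonneg _).trans (hk.b0 0)
  have hB0 : 0 ≤ B := (abs_nonneg _).trans hp
  unfold Fden
  refine (abs_add_le _ _).trans (add_le_add ?_ ?_)
  · rw [abs_mul, abs_neg, abs_of_pos (by positivity : 0 < ρ / 2)]
    refine mul_le_mul_of_nonneg_left ((KK_abs_le hk _).trans ?_) (by positivity)
    refine mul_le_mul_of_nonneg_left ?_ hκ0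
    rw [abs_of_nonneg (by positivity)]
    have e1 : p ^ 2 ≤ B ^ 2 := by rw [← sq_abs p]; exact pow_le_pow_left₀ (abs_nonneg _) hp 2
    have e2 : q ^ 2 ≤ B ^ 2 := by rw [← sq_abs q]; exact pow_le_pow_left₀ (abs_nonneg _) hq 2
    gcongr
  · rw [abs_mul]
    refine mul_le_mul ((Theta_abs_le hρ hk p q).trans ?_) hr (abs_nonneg _) (by positivity)
    gcongr

lemma integrable_dens {ζ : ℝ → ℝ} (hζ : Dens ζ) {f : ℝ → ℝ} (hf : Continuous f) {B : ℝ}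
    (hB : ∀ t, |f t| ≤ B) : Integrable (fun t => ζ t * f t) := by
  refine (hζ.int.abs.mul_const B).mono' (hζ.meas.mul hf.measurable).aestronglyMeasurable
    (Eventually.of_forall fun t => ?_)
  rw [norm_mul, Real.norm_eq_abs, Real.norm_eq_abs]
  exact mul_le_mul_of_nonneg_left (hB t) (abs_nonneg _)

lemma KK_kth_cont (δ : ℝ) : Continuous fun y : ℝ × ℝ => KK (kth δ y.1) y.2 := by
  unfold KK
  refine intervalIntegral.continuous_parametric_intervalIntegral_of_continuous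
    (f := fun (y : ℝ × ℝ) (τ : ℝ) => kth δ y.1 τ) ?_ continuous_snd
  show Continuous fun y : (ℝ × ℝ) × ℝ => kth δ y.1.1 y.2
  exact (kth_cont2 δ).comp (g := fun p : ℝ × ℝ => kth δ p.1 p.2)
    (f := fun y : (ℝ × ℝ) × ℝ => ((y.1.1, y.2) : ℝ × ℝ)) (by fun_prop)

lemma Theta_kth_cont (δ : ℝ) : Continuous fun y : ℝ × ℝ × ℝ => Theta ρ (kth δ y.1) y.2.1 y.2.2 := by
  unfold Theta
  refine continuous_const.mul ?_
  refine intervalIntegral.continuous_parametric_intervalIntegral_of_continuous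
    (f := fun (y : ℝ × ℝ × ℝ) (τ : ℝ) => kth δ y.1 ((y.2.1 ^ 2 + τ ^ 2) / ρ ^ 2)) ?_
    (continuous_snd.snd)
  show Continuous fun y : (ℝ × ℝ × ℝ) × ℝ => kth δ y.1.1 ((y.1.2.1 ^ 2 + y.2 ^ 2) / ρ ^ 2)
  exact (kth_cont2 δ).comp (g := fun p : ℝ × ℝ => kth δ p.1 p.2)
    (f := fun y : (ℝ × ℝ × ℝ) × ℝ => ((y.1.1, (y.1.2.1 ^ 2 + y.2 ^ 2) / ρ ^ 2) : ℝ × ℝ))
    (by fun_prop)

lemma Fden_kth_cont (δ : ℝ) :
    Continuous fun y : ℝ × ℝ × ℝ × ℝ => Fden ρ (kth δ y.1) y.2.1 y.2.2.1 y.2.2.2 := by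
  unfold Fden
  have h1 : Continuous fun y : ℝ × ℝ × ℝ × ℝ =>
      KK (kth δ y.1) ((y.2.1 ^ 2 + y.2.2.1 ^ 2) / ρ ^ 2) :=
    (KK_kth_cont δ).comp (g := fun y : ℝ × ℝ => KK (kth δ y.1) y.2)
      (f := fun y : ℝ × ℝ × ℝ × ℝ => ((y.1, (y.2.1 ^ 2 + y.2.2.1 ^ 2) / ρ ^ 2) : ℝ × ℝ))
      (by fun_prop)
  have h2 : Continuous fun y : ℝ × ℝ × ℝ × ℝ => Theta ρ (kth δ y.1) y.2.1 y.2.2.1 :=
    (Theta_kth_cont (ρ := ρ) δ).comp (g := fun y : ℝ × ℝ × ℝ => Theta ρ (kth δ y.1) y.2.1 y.2.2)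
      (f := fun y : ℝ × ℝ × ℝ × ℝ => ((y.1, y.2.1, y.2.2.1) : ℝ × ℝ × ℝ)) (by fun_prop)
  have h3 : Continuous fun y : ℝ × ℝ × ℝ × ℝ => y.2.2.2 := by fun_prop
  exact (continuous_const.mul h1).add (h2.mul h3)

lemma Fden_Kz (hρ : 0 < ρ) {δ : ℝ} (hδ : 0 < δ) {ζ : ℝ → ℝ} (hζ : Dens ζ) (p q r : ℝ) :
    Fden ρ (Kz δ ζ) p q r = ∫ t₀, ζ t₀ * Fden ρ (kth δ t₀) p q r := by
  obtain ⟨κ, hκ⟩ := kth_KB hδ
  have hκ0 : 0 ≤ κ := (abs_nonneg _).trans ((hκ 0).b0 0)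
  have c1 : Continuous fun t₀ => KK (kth δ t₀) ((p ^ 2 + q ^ 2) / ρ ^ 2) :=
    (KK_kth_cont δ).comp (g := fun y : ℝ × ℝ => KK (kth δ y.1) y.2)
      (f := fun t₀ : ℝ => ((t₀, (p ^ 2 + q ^ 2) / ρ ^ 2) : ℝ × ℝ)) (by fun_prop)
  have c2 : Continuous fun t₀ => Theta ρ (kth δ t₀) p q :=
    (Theta_kth_cont (ρ := ρ) δ).comp (g := fun y : ℝ × ℝ × ℝ => Theta ρ (kth δ y.1) y.2.1 y.2.2)
      (f := fun t₀ : ℝ => ((t₀, p, q) : ℝ × ℝ × ℝ)) (by fun_prop)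
  have i1 : Integrable fun t₀ => ζ t₀ * KK (kth δ t₀) ((p ^ 2 + q ^ 2) / ρ ^ 2) :=
    integrable_dens hζ c1 (B := κ * |(p ^ 2 + q ^ 2) / ρ ^ 2|) (fun t => KK_abs_le (hκ t) _)
  have i2 : Integrable fun t₀ => ζ t₀ * Theta ρ (kth δ t₀) p q :=
    integrable_dens hζ c2 (fun t => Theta_abs_le hρ (hκ t) p q)
  have e1 : KK (Kz δ ζ) ((p ^ 2 + q ^ 2) / ρ ^ 2)
      = ∫ t₀, ζ t₀ * KK (kth δ t₀) ((p ^ 2 + q ^ 2) / ρ ^ 2) :=
    swap1 hδ hζ continuous_id _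
  have e2 : Theta ρ (Kz δ ζ) p q = ∫ t₀, ζ t₀ * Theta ρ (kth δ t₀) p q := by
    unfold Theta
    have := swap1 hδ hζ (φ := fun τ : ℝ => (p ^ 2 + τ ^ 2) / ρ ^ 2) (by fun_prop) q
    rw [this, ← integral_const_mul]
    congr 1; funext t; ring
  unfold Fden
  rw [e1, e2, ← integral_const_mul, ← integral_mul_const]
  rw [← integral_add (i1.const_mul _) (i2.mul_const _)]
  congr 1; funext t; ring

lemma FF_kth_cont (δ : ℝ) {u : ℝ × ℝ → ℝ} (hu : Sm u) :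
    Continuous fun y : ℝ × (ℝ × ℝ) => FF ρ (kth δ y.1) u y.2 := by
  unfold FF
  have h1 := hu.cont
  have h2 := hu.dX.cont
  have h3 := hu.dT.cont
  have h4 := hu.dX.dT.cont
  exact (Fden_kth_cont (ρ := ρ) δ).comp
    (g := fun y : ℝ × ℝ × ℝ × ℝ => Fden ρ (kth δ y.1) y.2.1 y.2.2.1 y.2.2.2)
    (f := fun y : ℝ × (ℝ × ℝ) => ((y.1, ρ * u y.2 + dX u y.2, dT u y.2,
      ρ * dT u y.2 + dT (dX u) y.2) : ℝ × ℝ × ℝ × ℝ)) (by fun_prop)

lemma exists_bound_KR {f : ℝ × ℝ → ℝ} (hf : Continuous f) (R : ℝ) :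
    ∃ B : ℝ, 0 ≤ B ∧ ∀ z ∈ KR R, |f z| ≤ B := by
  obtain ⟨B, hB⟩ := (isCompact_KR R).exists_bound_of_continuousOn hf.continuousOn
  exact ⟨|B|, abs_nonneg _, fun z hz => (hB z hz).trans (le_abs_self _)⟩

/-- on smooth functions the functional commutes with superpositions. -/
theorem Lam_Kz (hρ : 0 < ρ) {χ : ℝ → ℝ} (hχ : IsCut χ) {δ : ℝ} (hδ : 0 < δ) {ζ : ℝ → ℝ}
    (hζ : Dens ζ) {u : ℝ × ℝ → ℝ} (hu : Sm u) :
    Lam ρ (Kz δ ζ) χ u = ∫ t₀, ζ t₀ * Lam ρ (kth δ t₀) χ u := by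
  obtain ⟨κz, hκz⟩ := Kz_KB hδ hζ
  obtain ⟨κ, hκ⟩ := kth_KB hδ
  rw [Lam_eq_J hκz.smooth.continuous hχ hu]
  have e1 : ∀ t₀, Lam ρ (kth δ t₀) χ u = J (fun z => χ z.1 * FF ρ (kth δ t₀) u z) :=
    fun t₀ => Lam_eq_J (kth_smooth δ t₀).continuous hχ hu
  simp_rw [e1]
  unfold J
  have e2 : ∀ z : ℝ × ℝ, χ z.1 * FF ρ (Kz δ ζ) u z
      = ∫ t₀, ζ t₀ * (χ z.1 * FF ρ (kth δ t₀) u z) := by
    intro z
    unfold FF
    rw [Fden_Kz hρ hδ hζ, ← integral_const_mul]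
    congr 1; funext t; ring
  simp_rw [e2, ← integral_const_mul]
  rw [integral_integral_swap]
  -- integrability
  obtain ⟨R, hR⟩ := XS.of_fst hχ.cpt
  obtain ⟨B1, hB10, hB1⟩ := exists_bound_KR (f := fun z => ρ * u z + dX u z)
    ((continuous_const.mul hu.cont).add hu.dX.cont) R
  obtain ⟨B2, hB20, hB2⟩ := exists_bound_KR hu.dT.cont R
  obtain ⟨B3, hB30, hB3⟩ := exists_bound_KR (f := fun z => ρ * dT u z + dT (dX u) z)
    ((continuous_const.mul hu.dT.cont).add hu.dX.dT.cont) R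
  obtain ⟨M, hM⟩ := Fden_bdd_KB hρ κ (B1 + B2 + B3)
  obtain ⟨Mχ, hMχ⟩ := hχ.cpt.exists_bound_of_continuous hχ.smooth.continuous
  have hMχ0 : 0 ≤ Mχ := (norm_nonneg _).trans (hMχ 0)
  have hm : AEStronglyMeasurable
      (Function.uncurry fun (z : ℝ × ℝ) (t₀ : ℝ) => ζ t₀ * (χ z.1 * FF ρ (kth δ t₀) u z))
      (mu2.prod volume) := by
    apply Measurable.aestronglyMeasurable
    have h1 : Measurable fun p : (ℝ × ℝ) × ℝ => ζ p.2 := hζ.meas.comp measurable_snd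
    have h2 : Continuous fun p : (ℝ × ℝ) × ℝ => FF ρ (kth δ p.2) u p.1 :=
      (FF_kth_cont (ρ := ρ) δ hu).comp (g := fun y : ℝ × (ℝ × ℝ) => FF ρ (kth δ y.1) u y.2)
        (f := fun p : (ℝ × ℝ) × ℝ => ((p.2, p.1) : ℝ × (ℝ × ℝ))) (by fun_prop)
    have h3 : Continuous fun p : (ℝ × ℝ) × ℝ => χ p.1.1 :=
      hχ.smooth.continuous.comp (by fun_prop)
    exact h1.mul (h3.mul h2).measurable
  have hi0 : Integrable ((KR R).indicator fun _ : ℝ × ℝ => Mχ * |M|) mu2 := by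
    rw [integrable_indicator_iff (isCompact_KR R).measurableSet]
    exact continuous_const.continuousOn.integrableOn_compact (isCompact_KR R)
  have hi : Integrable (fun p : (ℝ × ℝ) × ℝ =>
      (KR R).indicator (fun _ : ℝ × ℝ => Mχ * |M|) p.1 * |ζ p.2|) (mu2.prod volume) :=
    hi0.mul_prod hζ.int.abs
  refine hi.mono' hm ?_
  have hae : ∀ᵐ p ∂(mu2.prod (volume : Measure ℝ)), p.1.2 ∈ Set.Ioc (0 : ℝ) (2 * Real.pi) := by
    have := (Measure.quasiMeasurePreserving_fst (μ := mu2) (ν := (volume : Measure ℝ))).ae mu2_ae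
    exact this
  filter_upwards [hae] with p hp
  show ‖ζ p.2 * (χ p.1.1 * FF ρ (kth δ p.2) u p.1)‖ ≤ _
  by_cases hx : |p.1.1| ≤ R
  · have hz : p.1 ∈ KR R := ⟨abs_le.1 hx, Set.Ioc_subset_Icc_self hp⟩
    rw [Set.indicator_of_mem hz, norm_mul, norm_mul, Real.norm_eq_abs, Real.norm_eq_abs, mul_comm]
    refine mul_le_mul_of_nonneg_right ?_ (abs_nonneg _)
    refine mul_le_mul (hMχ _) ?_ (norm_nonneg _) hMχ0
    rw [Real.norm_eq_abs]
    unfold FF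
    have b1 := hB1 _ hz
    have b2 := hB2 _ hz
    have b3 := hB3 _ hz
    refine (hM _ (hκ _) _ _ _ (by linarith) (by linarith) (by linarith)).trans (le_abs_self _)
  · push Not at hx
    have h0 : χ p.1.1 = 0 := hR p.1.1 p.1.2 hx
    rw [h0, zero_mul, mul_zero, norm_zero]
    exact mul_nonneg (Set.indicator_nonneg (fun _ _ => by positivity) _) (abs_nonneg _)

lemma Lam_kth_cont {χ : ℝ → ℝ} (hχ : IsCut χ) (δ : ℝ) {u : ℝ × ℝ → ℝ}
    (hu : Sm u) : Continuous fun t₀ => Lam ρ (kth δ t₀) χ u := by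
  obtain ⟨R, hR⟩ := XS.of_fst hχ.cpt
  have e : (fun t₀ : ℝ => Lam ρ (kth δ t₀) χ u)
      = fun t₀ : ℝ => ∫ z in KR R, χ z.1 * FF ρ (kth δ t₀) u z ∂mu2 := by
    funext t₀
    rw [Lam_eq_J (kth_smooth δ t₀).continuous hχ hu]
    apply J_eq_set
    intro x t hx
    have := hR x t hx
    simp only at this
    simp [this]
  rw [e]
  refine continuous_parametric_integral_of_continuous (μ := mu2)
    (f := fun (t₀ : ℝ) (z : ℝ × ℝ) => χ z.1 * FF ρ (kth δ t₀) u z) ?_ (isCompact_KR R)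
  have h1 : Continuous fun y : ℝ × (ℝ × ℝ) => χ y.2.1 := hχ.smooth.continuous.comp (by fun_prop)
  exact h1.mul (FF_kth_cont δ hu)

lemma tendsto_LamC {χ : ℝ → ℝ} (hM : ModA ρ C h χ) {κ : ℝ} {k : ℝ → ℝ} (hk : KB κ k)
    {v : ℝ × ℝ → ℝ} (hv : InC ρ C h v) :
    Tendsto (fun ε => Lam ρ k χ (moll ε v)) (𝓝[>] 0) (𝓝 (LamC ρ k χ v)) := by
  obtain ⟨M, hM⟩ := hM κ
  rw [Metric.tendsto_nhds]
  intro e he
  have hcont : Continuous fun ε : ℝ => M * Real.sqrt ε := by fun_prop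
  have h1 : Tendsto (fun ε : ℝ => M * Real.sqrt ε) (𝓝[>] 0) (𝓝 0) := by
    have := (hcont.tendsto 0).mono_left (nhdsWithin_le_nhds (s := Set.Ioi 0))
    simpa using this
  have h3 : ∀ᶠ ε in 𝓝[>] (0 : ℝ), ε ∈ Set.Ioo (0 : ℝ) 1 := Ioo_mem_nhdsGT (by norm_num)
  filter_upwards [h1.eventually_lt_const he, h3] with ε h4 h5
  rw [Real.dist_eq]
  exact lt_of_le_of_lt (hM k hk v hv ε h5.1 h5.2) h4

lemma LamC_kth_cont {χ : ℝ → ℝ} (hχ : IsCut χ) (hM : ModA ρ C h χ) {δ : ℝ} (hδ : 0 < δ)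
    {v : ℝ × ℝ → ℝ} (hv : InC ρ C h v) : Continuous fun t₀ => LamC ρ (kth δ t₀) χ v := by
  obtain ⟨κ, hκ⟩ := kth_KB hδ
  obtain ⟨M, hM⟩ := hM κ
  refine continuous_of_uniform_approx_of_continuous fun u hu => ?_
  obtain ⟨e, he, heu⟩ := Metric.mem_uniformity_dist.1 hu
  obtain ⟨ε, h1, h2, h3⟩ := exists_small_sqrt M (e / 2) (by positivity)
  refine ⟨fun t₀ => Lam ρ (kth δ t₀) χ (moll ε v), Lam_kth_cont hχ δ (moll_smooth h1 hv.locInt),
    fun t₀ => heu ?_⟩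
  rw [dist_comm, Real.dist_eq]
  have := (hM _ (hκ t₀) v hv ε h1 h2).trans h3
  linarith

/-- superpositions at the level of the class. -/
theorem LamC_Kz (hρ : 0 < ρ) {χ : ℝ → ℝ} (hχ : IsCut χ) (hM : ModA ρ C h χ) {δ : ℝ} (hδ : 0 < δ)
    {ζ : ℝ → ℝ} (hζ : Dens ζ) (hζs : ∃ R : ℝ, ∀ t, R < |t| → ζ t = 0) {v : ℝ × ℝ → ℝ}
    (hv : InC ρ C h v) :
    LamC ρ (Kz δ ζ) χ v = ∫ t₀, ζ t₀ * LamC ρ (kth δ t₀) χ v := by
  obtain ⟨κz, hκz⟩ := Kz_KB hδ hζ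
  obtain ⟨κ, hκ⟩ := kth_KB hδ
  obtain ⟨R, hR⟩ := hζs
  have t1 := tendsto_LamC hM hκz hv
  obtain ⟨M, hM'⟩ := hM κ
  have hint : ∀ f : ℝ → ℝ, Continuous f → Integrable fun t => ζ t * f t := by
    intro f hf
    obtain ⟨B, hB⟩ := (isCompact_Icc (a := -R) (b := R)).exists_bound_of_continuousOn
      hf.continuousOn
    refine (hζ.int.abs.mul_const B).mono' (hζ.meas.mul hf.measurable).aestronglyMeasurable
      (Eventually.of_forall fun t => ?_)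
    rw [norm_mul, Real.norm_eq_abs]
    by_cases ht : |t| ≤ R
    · exact mul_le_mul_of_nonneg_left (hB t (abs_le.1 ht)) (abs_nonneg _)
    · push Not at ht
      rw [hR t ht]; simp
  refine tendsto_nhds_unique t1 ?_
  rw [Metric.tendsto_nhds]
  intro e he
  have hcont : Continuous fun ε : ℝ => (∫ t, |ζ t|) * (M * Real.sqrt ε) := by fun_prop
  have h1 : Tendsto (fun ε : ℝ => (∫ t, |ζ t|) * (M * Real.sqrt ε)) (𝓝[>] 0) (𝓝 0) := by
    have := (hcont.tendsto 0).mono_left (nhdsWithin_le_nhds (s := Set.Ioi 0))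
    simpa using this
  have h3 : ∀ᶠ ε in 𝓝[>] (0 : ℝ), ε ∈ Set.Ioo (0 : ℝ) 1 := Ioo_mem_nhdsGT (by norm_num)
  filter_upwards [h1.eventually_lt_const he, h3] with ε h4 h5
  have hu := moll_smooth h5.1 hv.locInt
  rw [Real.dist_eq, Lam_Kz hρ hχ hδ hζ hu,
    ← integral_sub (hint _ (Lam_kth_cont hχ δ hu)) (hint _ (LamC_kth_cont hχ hM hδ hv)),
    ← Real.norm_eq_abs]
  refine lt_of_le_of_lt ?_ h4
  rw [← integral_mul_const]
  refine norm_integral_le_of_norm_le (hζ.int.abs.mul_const _) (Eventually.of_forall fun t => ?_)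
  rw [← mul_sub, norm_mul, Real.norm_eq_abs, Real.norm_eq_abs]
  exact mul_le_mul_of_nonneg_left (hM' _ (hκ t) v hv ε h5.1 h5.2) (abs_nonneg _)

end Pool.Agent.Helper46.FrG
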