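import Pool.Agent.Helper46.FrG.Cpt

set_option autoImplicit false

open MeasureTheory Filter Topology
open scoped Convolution

namespace Pool.Agent.Helper46.FrG

open Pool.Agent.Helper42.Fr

variable {ρ C : ℝ} {h : ℝ → ℝ}

/-- one dimensional mollification. -/
noncomputable def gm (ε : ℝ) (g : ℝ → ℝ) (t : ℝ) : ℝ := ∫ s, g s * etaS ε (t - s)

lemma gm_eq (ε : ℝ) (g : ℝ → ℝ) :
    gm ε g = (g ⋆[ContinuousLinearMap.mul ℝ ℝ, (volume : Measure ℝ)] etaS ε) := rfl

lemma moll_hom {ε : ℝ} (hε : 0 < ε) {g : ℝ → ℝ} (x t : ℝ) :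
    moll ε (fun z => g z.2) (x, t) = gm ε g t := by
  unfold moll Helper42.Fr.ker gm
  have e : ∀ w : ℝ × ℝ, g w.2 * (etaS ε ((x, t) - w).1 * etaS ε ((x, t) - w).2)
      = etaS ε (x - w.1) * (g w.2 * etaS ε (t - w.2)) := by
    intro w
    simp only [Prod.fst_sub, Prod.snd_sub]
    ring
  simp_rw [e]
  rw [Measure.volume_eq_prod,
    integral_prod_mul (fun x' => etaS ε (x - x')) (fun s => g s * etaS ε (t - s)),
    integral_sub_left_eq_self (fun y => etaS ε y) volume x, etaS_int hε, one_mul]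

lemma gm_hasDeriv {ε : ℝ} (hε : 0 < ε) {g : ℝ → ℝ} (hg : Continuous g) (t : ℝ) :
    HasDerivAt (gm ε g) (∫ s, g s * deriv (etaS ε) (t - s)) t := by
  rw [gm_eq]
  have := (etaS_cpt hε).hasDerivAt_convolution_right (ContinuousLinearMap.mul ℝ ℝ)
    (μ := (volume : Measure ℝ)) (f₀ := g) hg.locallyIntegrable
    ((etaS_smooth ε).of_le (by exact_mod_cast le_top)) t
  exact this

lemma deriv_etaS (ε : ℝ) (s : ℝ) :
    deriv (etaS ε) s = ε⁻¹ * (ε⁻¹ * deriv eta (s / ε)) := by
  have h1 : HasDerivAt eta (deriv eta (s / ε)) (s / ε) :=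
    (eta_smooth.differentiable (by simp) _).hasDerivAt
  have h2 : HasDerivAt (fun y : ℝ => y / ε) (1 / ε) s := (hasDerivAt_id s).div_const ε
  have h3 : HasDerivAt (fun y : ℝ => eta (y / ε)) (deriv eta (s / ε) * (1 / ε)) s := h1.comp s h2
  have h4 := h3.const_mul ε⁻¹
  have h5 : HasDerivAt (etaS ε) (ε⁻¹ * (deriv eta (s / ε) * (1 / ε))) s := h4
  rw [h5.deriv, one_div]
  ring

lemma deta_cont : Continuous (deriv eta) := eta_smooth.continuous_deriv (by simp)

lemma deta_cpt : HasCompactSupport (deriv eta) := eta_cpt.deriv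

lemma deta_int : ∫ y, deriv eta y = 0 := by
  refine integral_eq_zero_of_hasDerivAt_of_integrable (f := eta) (fun x =>
    (eta_smooth.differentiable (by simp) _).hasDerivAt) ?_ ?_
  · exact deta_cont.integrable_of_hasCompactSupport deta_cpt
  · exact eta_smooth.continuous.integrable_of_hasCompactSupport eta_cpt

lemma ydeta_int : ∫ y, (-y) * deriv eta y = 1 := by
  have h1 : ∫ y, (eta y + y * deriv eta y) = 0 := by
    refine integral_eq_zero_of_hasDerivAt_of_integrable (f := fun y => y * eta y) (fun x => ?_) ?_ ?_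
    · have h2 : HasDerivAt (fun y : ℝ => y) 1 x := hasDerivAt_id x
      have h3 := h2.mul (eta_smooth.differentiable (by simp) x).hasDerivAt
      rw [one_mul] at h3
      exact h3
    · exact (eta_smooth.continuous.add (continuous_id.mul deta_cont)).integrable_of_hasCompactSupport
        (eta_cpt.add (deta_cpt.mul_left (f := fun y : ℝ => y)))
    · exact (continuous_id.mul eta_smooth.continuous).integrable_of_hasCompactSupport
        (eta_cpt.mul_left (f := fun y : ℝ => y))
  rw [integral_add] at h1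
  · rw [eta_int] at h1
    have : ∫ y, (-y) * deriv eta y = - ∫ y, y * deriv eta y := by
      rw [← integral_neg]; congr 1; funext y; ring
    rw [this]; linarith
  · exact eta_smooth.continuous.integrable_of_hasCompactSupport eta_cpt
  · exact (continuous_id.mul deta_cont).integrable_of_hasCompactSupport
        (deta_cpt.mul_left (f := fun y : ℝ => y))

/-- change of variables. -/
lemma cov {ε : ℝ} (hε : 0 < ε) (F : ℝ → ℝ → ℝ) (t : ℝ) :
    ∫ s, F s ((t - s) / ε) = ε * ∫ y, F (t - ε * y) y := by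
  have h1 : ∫ s, F s ((t - s) / ε) = ∫ s, F (t - s) (s / ε) := by
    rw [← integral_sub_left_eq_self (fun s => F s ((t - s) / ε)) volume t]
    congr 1; funext s
    simp
  rw [h1]
  have h2 := Measure.integral_comp_div (fun y => F (t - ε * y) y) ε
  rw [abs_of_pos hε] at h2
  rw [smul_eq_mul] at h2
  rw [← h2]
  congr 1; funext s
  congr 1
  field_simp

lemma gm_cov {ε : ℝ} (hε : 0 < ε) (g : ℝ → ℝ) (t : ℝ) :
    gm ε g t = ∫ y, g (t - ε * y) * eta y := by
  unfold gm etaS
  have := cov hε (fun s y => g s * (ε⁻¹ * eta y)) t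
  rw [this, ← integral_const_mul]
  congr 1; funext y
  field_simp

lemma dgm_cov {ε : ℝ} (hε : 0 < ε) {g : ℝ → ℝ} (hg : Continuous g) (t : ℝ) :
    ∫ s, g s * deriv (etaS ε) (t - s) = ∫ y, (ε⁻¹ * (g (t - ε * y) - g t)) * deriv eta y := by
  have e1 : ∫ s, g s * deriv (etaS ε) (t - s)
      = ∫ s, g s * (ε⁻¹ * (ε⁻¹ * deriv eta ((t - s) / ε))) := by
    congr 1; funext s; rw [deriv_etaS ε]
  have := cov hε (fun s y => g s * (ε⁻¹ * (ε⁻¹ * deriv eta y))) t
  rw [e1, this]
  have hI1 : Integrable fun y => (ε⁻¹ * g (t - ε * y)) * deriv eta y := by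
    apply Continuous.integrable_of_hasCompactSupport
    · exact (continuous_const.mul (hg.comp (by fun_prop))).mul deta_cont
    · exact deta_cpt.mul_left
  have hI2 : Integrable fun y => (ε⁻¹ * g t) * deriv eta y :=
    (deta_cont.integrable_of_hasCompactSupport deta_cpt).const_mul _
  have e2 : ∫ y, (ε⁻¹ * (g (t - ε * y) - g t)) * deriv eta y
      = (∫ y, (ε⁻¹ * g (t - ε * y)) * deriv eta y) - ∫ y, (ε⁻¹ * g t) * deriv eta y := by
    rw [← integral_sub hI1 hI2]
    congr 1; funext y; ring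
  rw [e2, integral_const_mul (ε⁻¹ * g t), deta_int, mul_zero, sub_zero, ← integral_const_mul]
  congr 1; funext y
  field_simp

/-- convergence of the mollified derivative at differentiability points. -/
lemma dgm_tendsto {g : ℝ → ℝ} {C : ℝ} (hl : ∀ s t, |g s - g t| ≤ C * |s - t|)
    (hg : Continuous g) {t : ℝ} (hd : DifferentiableAt ℝ g t) :
    Tendsto (fun ε : ℝ => ∫ s, g s * deriv (etaS ε) (t - s)) (𝓝[>] 0) (𝓝 (deriv g t)) := by
  have h1 : (fun ε : ℝ => ∫ s, g s * deriv (etaS ε) (t - s)) =ᶠ[𝓝[>] 0]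
      fun ε => ∫ y, (ε⁻¹ * (g (t - ε * y) - g t)) * deriv eta y := by
    filter_upwards [self_mem_nhdsWithin] with ε hε
    exact dgm_cov hε hg t
  refine Tendsto.congr' h1.symm ?_
  have h2 : deriv g t = ∫ y, (deriv g t * (-y)) * deriv eta y := by
    have : ∀ y : ℝ, (deriv g t * (-y)) * deriv eta y = deriv g t * ((-y) * deriv eta y) := by
      intro y; ring
    simp_rw [this]
    rw [integral_const_mul, ydeta_int, mul_one]
  rw [h2]
  refine tendsto_integral_filter_of_dominated_convergence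
    (fun y => (C * |y|) * |deriv eta y|) ?_ ?_ ?_ ?_
  · refine Eventually.of_forall fun ε => ?_
    refine Continuous.aestronglyMeasurable ?_
    exact (continuous_const.mul ((hg.comp (by fun_prop)).sub continuous_const)).mul deta_cont
  · filter_upwards [self_mem_nhdsWithin] with ε hε
    have hε' : (0 : ℝ) < ε := hε
    refine Eventually.of_forall fun y => ?_
    rw [norm_mul, Real.norm_eq_abs, Real.norm_eq_abs]
    refine mul_le_mul_of_nonneg_right ?_ (abs_nonneg _)
    rw [abs_mul, abs_of_pos (inv_pos.2 hε')]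
    have h3 := hl (t - ε * y) t
    have e3 : |t - ε * y - t| = ε * |y| := by
      rw [show t - ε * y - t = -(ε * y) by ring, abs_neg, abs_mul, abs_of_pos hε']
    rw [e3] at h3
    calc ε⁻¹ * |g (t - ε * y) - g t| ≤ ε⁻¹ * (C * (ε * |y|)) :=
          mul_le_mul_of_nonneg_left h3 (inv_pos.2 hε').le
      _ = C * |y| := by field_simp
  · apply Continuous.integrable_of_hasCompactSupport
    · exact (continuous_const.mul continuous_abs).mul deta_cont.abs
    · exact deta_cpt.abs.mul_left
  · refine Eventually.of_forall fun y => ?_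
    refine Tendsto.mul_const _ ?_
    rcases eq_or_ne y 0 with hy | hy
    · subst hy
      simp
    · have hder := hd.hasDerivAt
      rw [hasDerivAt_iff_tendsto_slope] at hder
      have hto : Tendsto (fun ε : ℝ => t - ε * y) (𝓝[>] 0) (𝓝[≠] t) := by
        rw [tendsto_nhdsWithin_iff]
        constructor
        · have hcont : Continuous fun ε : ℝ => t - ε * y := by fun_prop
          have := (hcont.tendsto 0).mono_left (nhdsWithin_le_nhds (s := Set.Ioi 0))
          simpa using this
        · filter_upwards [self_mem_nhdsWithin] with ε hε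
          have hε' : (0 : ℝ) < ε := hε
          intro hcon
          have : ε * y = 0 := by
            have h4 : t - ε * y = t := hcon
            linarith
          rcases mul_eq_zero.1 this with h5 | h5
          · exact hε'.ne' h5
          · exact hy h5
      have h5 := (hder.comp hto).mul_const (-y)
      refine h5.congr' ?_
      filter_upwards [self_mem_nhdsWithin] with ε hε
      have hε' : (0 : ℝ) < ε := hε
      simp only [Function.comp_apply, slope_def_field]
      have hne : t - ε * y - t ≠ 0 := by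
        rw [show t - ε * y - t = -(ε * y) by ring]
        exact neg_ne_zero.2 (mul_ne_zero hε'.ne' hy)
      have hne2 : ε ≠ 0 := hε'.ne'
      rw [show t - ε * y - t = -(ε * y) by ring]
      field_simp

lemma gm_tendsto {g : ℝ → ℝ} {C : ℝ} (hC : 0 ≤ C) (hl : ∀ s t, |g s - g t| ≤ C * |s - t|)
    (hg : Continuous g) (t : ℝ) :
    Tendsto (fun ε : ℝ => gm ε g t) (𝓝[>] 0) (𝓝 (g t)) := by
  have h1 : (fun ε : ℝ => gm ε g t) =ᶠ[𝓝[>] 0] fun ε => ∫ y, g (t - ε * y) * eta y := by
    filter_upwards [self_mem_nhdsWithin] with ε hε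
    exact gm_cov hε g t
  refine Tendsto.congr' h1.symm ?_
  have h2 : g t = ∫ y, g t * eta y := by rw [integral_const_mul, eta_int, mul_one]
  conv_rhs => rw [h2]
  have hev : ∀ᶠ ε in 𝓝[>] (0 : ℝ), ε ∈ Set.Ioo (0 : ℝ) 1 := Ioo_mem_nhdsGT (by norm_num)
  refine tendsto_integral_filter_of_dominated_convergence
    (fun y => (|g t| + C * |y|) * |eta y|) ?_ ?_ ?_ ?_
  · refine Eventually.of_forall fun ε => ?_
    refine Continuous.aestronglyMeasurable ?_
    exact (hg.comp (by fun_prop)).mul eta_smooth.continuous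
  · filter_upwards [hev] with ε hε
    refine Eventually.of_forall fun y => ?_
    rw [norm_mul, Real.norm_eq_abs, Real.norm_eq_abs]
    refine mul_le_mul_of_nonneg_right ?_ (abs_nonneg _)
    have h3 := hl (t - ε * y) t
    have e3 : |t - ε * y - t| = ε * |y| := by
      rw [show t - ε * y - t = -(ε * y) by ring, abs_neg, abs_mul, abs_of_pos hε.1]
    rw [e3] at h3
    have h4 : C * (ε * |y|) ≤ C * |y| := by
      refine mul_le_mul_of_nonneg_left ?_ hC
      nlinarith [abs_nonneg y, hε.1, hε.2]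
    have h5 := abs_sub_abs_le_abs_sub (g (t - ε * y)) (g t)
    linarith
  · apply Continuous.integrable_of_hasCompactSupport
    · exact (continuous_const.add (continuous_const.mul continuous_abs)).mul
        eta_smooth.continuous.abs
    · exact eta_cpt.abs.mul_left
  · refine Eventually.of_forall fun y => ?_
    refine Tendsto.mul_const _ ?_
    have hcont : Continuous fun ε : ℝ => g (t - ε * y) := hg.comp (by fun_prop)
    have := (hcont.tendsto 0).mono_left (nhdsWithin_le_nhds (s := Set.Ioi 0))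
    simpa using this

lemma dX_const_fst {G : ℝ → ℝ} (hG : ContDiff ℝ (⊤ : ℕ∞) G) :
    dX (fun z : ℝ × ℝ => G z.2) = fun _ => 0 := by
  have hs : Sm (fun z : ℝ × ℝ => G z.2) := hG.comp contDiff_snd
  funext ⟨x, t⟩
  exact dX_eq_of_hasDerivAt (hs.diff _) (hasDerivAt_const x (G t))

lemma dT_of_snd {G : ℝ → ℝ} (hG : ContDiff ℝ (⊤ : ℕ∞) G) :
    dT (fun z : ℝ × ℝ => G z.2) = fun z => deriv G z.2 := by
  have hs : Sm (fun z : ℝ × ℝ => G z.2) := hG.comp contDiff_snd
  funext ⟨x, t⟩
  exact dT_eq_of_hasDerivAt (hs.diff _) (hG.differentiable (by simp) t).hasDerivAt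

lemma dT_zero' : dT (fun _ : ℝ × ℝ => (0 : ℝ)) = fun _ => 0 := by
  funext z
  unfold dT
  simp

lemma gm_smooth {ε : ℝ} (hε : 0 < ε) {g : ℝ → ℝ} (hg : Continuous g) :
    ContDiff ℝ (⊤ : ℕ∞) (gm ε g) := by
  rw [gm_eq]
  exact (etaS_cpt hε).contDiff_convolution_right _ hg.locallyIntegrable (etaS_smooth ε)

lemma FF_hom {k : ℝ → ℝ} {ε : ℝ} (hε : 0 < ε) {g : ℝ → ℝ} (hg : Continuous g) (x t : ℝ) :
    FF ρ k (moll ε (fun z => g z.2)) (x, t)
      = Fden ρ k (ρ * gm ε g t) (deriv (gm ε g) t) (ρ * deriv (gm ε g) t) := by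
  have e : moll ε (fun z => g z.2) = fun z : ℝ × ℝ => gm ε g z.2 := by
    funext ⟨x, t⟩
    exact moll_hom hε x t
  have hG := gm_smooth hε hg
  unfold FF
  rw [e, dX_const_fst hG, dT_of_snd hG, dT_zero']
  simp

lemma Lam_hom {k χ : ℝ → ℝ} {ε : ℝ} (hε : 0 < ε) {g : ℝ → ℝ} (hg : Continuous g) :
    Lam ρ k χ (moll ε (fun z => g z.2)) = (∫ x, χ x) *
      ∫ t in (0 : ℝ)..(2 * Real.pi),
        Fden ρ k (ρ * gm ε g t) (deriv (gm ε g) t) (ρ * deriv (gm ε g) t) := by
  unfold Lam
  have e : ∀ x t : ℝ, χ x * FF ρ k (moll ε (fun z => g z.2)) (x, t)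
      = χ x * Fden ρ k (ρ * gm ε g t) (deriv (gm ε g) t) (ρ * deriv (gm ε g) t) := by
    intro x t
    rw [FF_hom hε hg]
  simp_rw [e, intervalIntegral.integral_const_mul]
  rw [integral_mul_const]

/-- (A10 vi) value on homogeneous members. -/
theorem hom_val (hh : IndH ρ C h) {k χ : ℝ → ℝ} (hk : Continuous k) {g : ℝ → ℝ}
    (hv : InC ρ C h (fun z => g z.2)) :
    LamC ρ k χ (fun z => g z.2) = (∫ x, χ x) * lamH ρ k g := by
  have hC := hh.C_nonneg
  have hl : ∀ s t, |g s - g t| ≤ C * |s - t| := by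
    intro s t
    have := hv.lip (0, s) (0, t)
    simpa using this
  have hL : LipschitzWith (Real.toNNReal C) g := by
    apply LipschitzWith.of_dist_le_mul
    intro y z
    rw [Real.dist_eq, Real.dist_eq, Real.coe_toNNReal C hC]
    exact hl y z
  have hg : Continuous g := hL.continuous
  have hb : ∀ t, |g t| ≤ C := fun t => hv.bdd (0, t)
  apply Tendsto.limUnder_eq
  have h1 : (fun ε => Lam ρ k χ (moll ε (fun z => g z.2))) =ᶠ[𝓝[>] (0 : ℝ)] fun ε =>
      (∫ x, χ x) * ∫ t in (0 : ℝ)..(2 * Real.pi),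
        Fden ρ k (ρ * gm ε g t) (deriv (gm ε g) t) (ρ * deriv (gm ε g) t) := by
    filter_upwards [self_mem_nhdsWithin] with ε hε
    exact Lam_hom hε hg
  refine Tendsto.congr' h1.symm ?_
  refine Tendsto.const_mul _ ?_
  unfold lamH
  obtain ⟨M, hM⟩ := Fden_bdd (ρ := ρ) hk (C + |ρ| * C)
  have hρC : 0 ≤ |ρ| * C := mul_nonneg (abs_nonneg _) hC
  -- bounds for gm
  have hgb : ∀ ε : ℝ, 0 < ε → ∀ t, |gm ε g t| ≤ C ∧ |deriv (gm ε g) t| ≤ C := by
    intro ε hε t
    constructor
    · have := moll_bound hε (f := fun z => g z.2) hv.bdd (0, t)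
      rwa [moll_hom hε] at this
    · have := moll_dT_le hC hv hε (0, t)
      have e : moll ε (fun z => g z.2) = fun z : ℝ × ℝ => gm ε g z.2 := by
        funext ⟨x, t⟩
        exact moll_hom hε x t
      rw [e, dT_of_snd (gm_smooth hε hg)] at this
      exact this
  refine intervalIntegral.tendsto_integral_filter_of_dominated_convergence (fun _ => M) ?_ ?_ ?_ ?_
  · filter_upwards [self_mem_nhdsWithin] with ε hε
    have hG := gm_smooth hε hg
    have h1 := hG.continuous
    have h2 : Continuous (deriv (gm ε g)) := hG.continuous_deriv (by simp)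
    have h3 : Continuous fun t : ℝ => ((ρ * gm ε g t, deriv (gm ε g) t, ρ * deriv (gm ε g) t)
        : ℝ × ℝ × ℝ) := by fun_prop
    exact ((cont_Fden (ρ := ρ) hk).comp h3).aestronglyMeasurable
  · filter_upwards [self_mem_nhdsWithin] with ε hε
    refine Eventually.of_forall fun t _ => ?_
    obtain ⟨b1, b2⟩ := hgb ε hε t
    rw [Real.norm_eq_abs]
    apply hM
    · rw [abs_mul]
      have := mul_le_mul_of_nonneg_left b1 (abs_nonneg ρ)
      linarith
    · linarith
    · rw [abs_mul]
      have := mul_le_mul_of_nonneg_left b2 (abs_nonneg ρ)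
      linarith
  · exact intervalIntegrable_const
  · filter_upwards [hL.ae_differentiableAt_real] with t ht _
    have t1 := gm_tendsto hC hl hg t
    have t2 : Tendsto (fun ε : ℝ => deriv (gm ε g) t) (𝓝[>] 0) (𝓝 (deriv g t)) := by
      refine (dgm_tendsto hl hg ht).congr' ?_
      filter_upwards [self_mem_nhdsWithin] with ε hε
      exact (gm_hasDeriv hε hg t).deriv.symm
    exact Fden_tendsto hk (t1.const_mul ρ) t2 (t2.const_mul ρ)

end Pool.Agent.Helper46.FrG
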