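import Pool.Agent.Helper46.FrG.Small

set_option autoImplicit false

open MeasureTheory Filter Topology

namespace Pool.Agent.Helper46.FrG

open Pool.Agent.Helper42.Fr

variable {ρ C : ℝ} {h : ℝ → ℝ} {vh : ℝ × ℝ → ℝ}

/-- monotonicity from block A. -/
def MonoA (ρ C : ℝ) (h χ : ℝ → ℝ) : Prop := ∀ (κ : ℝ) (k : ℝ → ℝ), KB κ k → (∀ s, 0 ≤ k s) →
  ∀ v, InC ρ C h v → Monotone (fun X => LamC ρ k χ (shift X v))

/-- rigidity from block A. -/
def RigidA (ρ C : ℝ) (h χ : ℝ → ℝ) : Prop := ∀ v, InC ρ C h v →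
  (∀ X, LamC ρ (fun _ => 1) χ (shift X v) = LamC ρ (fun _ => 1) χ v) → ∀ x t, v (x, t) = v (0, t)

/-- the limit set. -/
def LimSet (ρ C : ℝ) (h : ℝ → ℝ) (vh v : ℝ × ℝ → ℝ) : Prop :=
  InC ρ C h v ∧ ∃ X : ℕ → ℝ, Tendsto X atTop atTop ∧ ConvD (fun j => shift (X j) vh) v

lemma shift_shift (X Y : ℝ) (v : ℝ × ℝ → ℝ) : shift X (shift Y v) = shift (X + Y) v := by
  funext z
  simp [shift, add_assoc]

lemma shift_zero (v : ℝ × ℝ → ℝ) : shift 0 v = v := by
  funext z
  simp [shift]

lemma cont_shift {ψ : ℝ × ℝ → ℝ} (h : Continuous ψ) (X : ℝ) : Continuous (shift X ψ) :=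
  h.comp (by fun_prop)

/-- convergence of translates with converging additional translations. -/
theorem convD_shift_seq (hT : Traj ρ C h vh) {X T : ℕ → ℝ} (hX : Tendsto X atTop atTop)
    {v : ℝ × ℝ → ℝ} (hc : ConvD (fun j => shift (X j) vh) v) {T0 : ℝ}
    (hT0 : Tendsto T atTop (𝓝 T0)) : ConvD (fun j => shift (X j + T j) vh) (shift T0 v) := by
  intro ψ hψ hψc
  have e1 : ∀ j, ∫ z, shift (X j + T j) vh z * ψ z = ∫ z, shift (X j) vh z * shift (-(T j)) ψ z := by
    intro j
    rw [add_comm, ← shift_shift, integral_shift]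
  have e2 : ∫ z, shift T0 v z * ψ z = ∫ z, v z * shift (-T0) ψ z := integral_shift _ _ _
  simp_rw [e1]
  rw [e2]
  have h1 := hc (shift (-T0) ψ) (cont_shift hψ _) (cpt_shift hψc _)
  -- the difference tends to zero
  obtain ⟨S, hS0, hS⟩ := supp_box hψc
  obtain ⟨B, hB⟩ := hT0.abs.isBoundedUnder_le
  have hB' : ∀ᶠ j in atTop, |T j| ≤ B := hB
  set R := S + |B| + |T0| with hR
  obtain ⟨M, hM⟩ := traj_l1 hT hX R
  have huc : UniformContinuous ψ := hψc.uniformContinuous_of_continuous hψ
  have h2 : Tendsto (fun j => (∫ z, shift (X j) vh z * shift (-(T j)) ψ z)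
      - ∫ z, shift (X j) vh z * shift (-T0) ψ z) atTop (𝓝 0) := by
    rw [Metric.tendsto_atTop]
    intro e he
    have he' : 0 < e / (2 * (|M| + 1)) := by positivity
    obtain ⟨δ, hδ, hδψ⟩ := Metric.uniformContinuous_iff.1 huc _ he'
    have hTd : ∀ᶠ j in atTop, |T j - T0| < δ := by
      have := hT0.eventually (Metric.ball_mem_nhds T0 hδ)
      filter_upwards [this] with j hj
      rwa [Real.dist_eq] at hj
    have hall : ∀ᶠ j in atTop, |(∫ z, shift (X j) vh z * shift (-(T j)) ψ z)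
      - ∫ z, shift (X j) vh z * shift (-T0) ψ z| < e := by
      filter_upwards [hTd, hB', hM] with j h3 h4 h5
      have hL := locInt_shift hT.locInt (X j)
      have i1 : Integrable (fun z => shift (X j) vh z * shift (-(T j)) ψ z) := by
        have := hL.integrable_smul_right_of_hasCompactSupport (cont_shift hψ (-(T j)))
          (cpt_shift hψc (-(T j)))
        exact this
      have i2 : Integrable (fun z => shift (X j) vh z * shift (-T0) ψ z) := by
        have := hL.integrable_smul_right_of_hasCompactSupport (cont_shift hψ (-T0))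
          (cpt_shift hψc (-T0))
        exact this
      rw [← integral_sub i1 i2, ← Real.norm_eq_abs]
      have hint : IntegrableOn (fun z => |shift (X j) vh z|) (BX R) :=
        (hL.integrableOn_isCompact (isCompact_BX R)).abs
      have h6 : Integrable ((BX R).indicator
          (fun z => e / (2 * (|M| + 1)) * |shift (X j) vh z|)) := by
        rw [integrable_indicator_iff (isCompact_BX R).measurableSet]
        exact hint.const_mul _
      have h7 : ∀ z, ‖shift (X j) vh z * shift (-(T j)) ψ z - shift (X j) vh z * shift (-T0) ψ z‖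
          ≤ (BX R).indicator (fun z => e / (2 * (|M| + 1)) * |shift (X j) vh z|) z := by
        intro z
        by_cases hz : z ∈ BX R
        · rw [Set.indicator_of_mem hz, ← mul_sub, norm_mul, mul_comm, Real.norm_eq_abs,
            Real.norm_eq_abs]
          refine mul_le_mul_of_nonneg_right ?_ (abs_nonneg _)
          have h8 : dist ((z.1 + -(T j), z.2) : ℝ × ℝ) (z.1 + -T0, z.2) < δ := by
            rw [Prod.dist_eq]
            simp only [dist_self]
            rw [Real.dist_eq]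
            have : z.1 + -(T j) - (z.1 + -T0) = -(T j - T0) := by ring
            rw [this, abs_neg]
            exact max_lt h3 hδ
          have h9 := hδψ h8
          rw [Real.dist_eq] at h9
          exact h9.le
        · rw [Set.indicator_of_notMem hz]
          have hz1 : ∀ Y : ℝ, |Y| ≤ |B| ∨ |Y| ≤ |T0| → shift (-Y) ψ z = 0 := by
            intro Y hY
            by_contra hne
            have := hS _ hne
            apply hz
            have a1 : |z.1| ≤ R := by
              have e3 : z.1 = (z.1 + -Y) + Y := by ring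
              rw [e3]
              refine (abs_add_le _ _).trans ?_
              have := this.1
              simp only at this
              rcases hY with hY | hY
              · rw [hR]; linarith [abs_nonneg T0]
              · rw [hR]; linarith [abs_nonneg B]
            have a2 : |z.2| ≤ R := by
              have := this.2
              simp only at this
              rw [hR]; linarith [abs_nonneg T0, abs_nonneg B]
            exact ⟨abs_le.1 a1, abs_le.1 a2⟩
          rw [hz1 (T j) (Or.inl (h4.trans (le_abs_self _))), hz1 T0 (Or.inr le_rfl)]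
          simp
      have h8 := norm_integral_le_of_norm_le h6 (Eventually.of_forall h7)
      rw [integral_indicator (isCompact_BX R).measurableSet, integral_const_mul] at h8
      refine lt_of_le_of_lt h8 ?_
      have h9 : e / (2 * (|M| + 1)) * ∫ z in BX R, |shift (X j) vh z|
          ≤ e / (2 * (|M| + 1)) * |M| :=
        mul_le_mul_of_nonneg_left (h5.trans (le_abs_self _)) he'.le
      refine lt_of_le_of_lt h9 ?_
      have h10 : e / (2 * (|M| + 1)) * |M| ≤ e / (2 * (|M| + 1)) * (|M| + 1) :=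
        mul_le_mul_of_nonneg_left (by linarith) he'.le
      refine lt_of_le_of_lt h10 ?_
      have : e / (2 * (|M| + 1)) * (|M| + 1) = e / 2 := by field_simp
      rw [this]; linarith
    obtain ⟨N, hN⟩ := eventually_atTop.1 hall
    refine ⟨N, fun n hn => ?_⟩
    rw [Real.dist_eq, sub_zero]
    exact hN n hn
  have h3 := h2.add h1
  simpa using h3

lemma ConvD.subseq {X : ℕ → ℝ} {v : ℝ × ℝ → ℝ} (hc : ConvD (fun j => shift (X j) vh) v)
    {φ : ℕ → ℕ} (hφ : Tendsto φ atTop atTop) : ConvD (fun j => shift (X (φ j)) vh) v :=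
  fun ψ h1 h2 => (hc ψ h1 h2).comp hφ

lemma LimSet.shift (hT : Traj ρ C h vh) {v : ℝ × ℝ → ℝ} (hv : LimSet ρ C h vh v) (Y : ℝ) :
    LimSet ρ C h vh (shift Y v) := by
  obtain ⟨h1, X, hX, hc⟩ := hv
  exact ⟨h1.shift Y, fun j => X j + Y, tendsto_atTop_add_const_right _ _ hX,
    convD_shift_seq hT hX hc tendsto_const_nhds⟩

/-- last crossing of a level. -/
lemma exists_last {G : ℝ → ℝ} (hG : Continuous G) {A B c : ℝ} (hAB : A ≤ B) (hA : c ≤ G A)
    (hB : G B < c) : ∃ X, A ≤ X ∧ X < B ∧ G X = c ∧ ∀ Y, X < Y → Y ≤ B → G Y < c := by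
  have hK : IsCompact (Set.Icc A B ∩ G ⁻¹' Set.Ici c) :=
    isCompact_Icc.inter_right (isClosed_Ici.preimage hG)
  have hne : (Set.Icc A B ∩ G ⁻¹' Set.Ici c).Nonempty := ⟨A, ⟨le_rfl, hAB⟩, hA⟩
  obtain ⟨X, hX, hmax⟩ := hK.exists_isGreatest hne
  have hXB : X < B := by
    rcases hX.1.2.lt_or_eq with h1 | h1
    · exact h1
    · exfalso
      have : c ≤ G X := hX.2
      rw [h1] at this
      linarith
  have hlast : ∀ Y, X < Y → Y ≤ B → G Y < c := by
    intro Y h1 h2
    by_contra hcon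
    push Not at hcon
    have : Y ≤ X := hmax ⟨⟨hX.1.1.trans h1.le, h2⟩, hcon⟩
    linarith
  refine ⟨X, hX.1.1, hXB, ?_, hlast⟩
  apply le_antisymm _ hX.2
  have h1 : Tendsto G (𝓝[>] X) (𝓝 (G X)) := (hG.tendsto X).mono_left nhdsWithin_le_nhds
  refine le_of_tendsto h1 ?_
  filter_upwards [Ioo_mem_nhdsGT hXB] with Y hY
  exact (hlast Y hY.1 hY.2.le).le

/-- (G1) the level argument. -/
theorem level (hh : IndH ρ C h) (hT : Traj ρ C h vh) {χ : ℝ → ℝ} (hχ : IsCut χ)
    (hχ1 : ∫ x, χ x = 1) (hM : ModA ρ C h χ) (h3 : A3A ρ C h χ) (hmono : MonoA ρ C h χ)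
    (hrig : RigidA ρ C h χ) {k : ℝ → ℝ} {κ : ℝ} (hk : KB κ k) (hk0 : ∀ s, 0 ≤ k s)
    {v1 v2 : ℝ × ℝ → ℝ} (hv1 : LimSet ρ C h vh v1) (hv2 : LimSet ρ C h vh v2) {c e : ℝ}
    (he : 0 < e) (h1 : LamC ρ k χ v1 < c - 4 * e) (h2 : c + 4 * e < LamC ρ k χ v2)
    (hg : ∀ g : ℝ → ℝ, InC ρ C h (fun z => g z.2) → lamH ρ k g ∉ Set.Icc (c - e) (c + e)) :
    False := by
  have hkc := hk.smooth.continuous
  obtain ⟨MA, hMA⟩ := hM κ
  obtain ⟨ε, hε, hε1, hεM⟩ := exists_small_sqrt MA e he
  have hclose : ∀ v, InC ρ C h v → |Lam ρ k χ (moll ε v) - LamC ρ k χ v| ≤ e :=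
    fun v hv => (hMA k hk v hv ε hε hε1).trans hεM
  set G : ℝ → ℝ := fun X => Lam ρ k χ (moll ε (shift X vh)) with hGdef
  have hGc : Continuous G := cont_traj hkc hχ hT.locInt hε
  -- low and high values arbitrarily far
  have hlow : ∀ N : ℝ, ∃ X, N ≤ X ∧ G X < c - 3 * e := by
    intro N
    obtain ⟨hi, X, hX, hc⟩ := hv1
    have t1 := lim_traj hT hkc hχ hε hX hi hc
    have t2 : Lam ρ k χ (moll ε v1) < c - 3 * e := by
      have := abs_le.1 (hclose v1 hi)
      linarith [this.2]
    obtain ⟨j, hj1, hj2⟩ := ((t1.eventually_lt_const t2).and (hX.eventually_ge_atTop N)).exists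
    exact ⟨X j, hj2, hj1⟩
  have hhigh : ∀ N : ℝ, ∃ X, N ≤ X ∧ c < G X := by
    intro N
    obtain ⟨hi, X, hX, hc⟩ := hv2
    have t1 := lim_traj hT hkc hχ hε hX hi hc
    have t2 : c < Lam ρ k χ (moll ε v2) := by
      have := abs_le.1 (hclose v2 hi)
      linarith [this.1]
    obtain ⟨j, hj1, hj2⟩ := ((t1.eventually_const_lt t2).and (hX.eventually_ge_atTop N)).exists
    exact ⟨X j, hj2, hj1⟩
  have hex : ∀ n : ℕ, ∃ X B : ℝ, (n : ℝ) ≤ X ∧ X < B ∧ G X = c ∧ G B < c - 3 * e ∧
      ∀ Y, X < Y → Y ≤ B → G Y < c := by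
    intro n
    obtain ⟨A, hA1, hA2⟩ := hhigh n
    obtain ⟨B, hB1, hB2⟩ := hlow A
    obtain ⟨X, hX1, hX2, hX3, hX4⟩ := exists_last hGc hB1 hA2.le (by linarith : G B < c)
    exact ⟨X, B, hA1.trans hX1, hX2, hX3, hB2, hX4⟩
  choose X B hXn hXB hXc hBc hlast using hex
  have hX : Tendsto X atTop atTop := tendsto_atTop_mono hXn tendsto_natCast_atTop_atTop
  obtain ⟨φ, hφ, v, hv, hc⟩ := hT.cpt X hX
  have hXφ : Tendsto (fun j => X (φ j)) atTop atTop := hX.comp hφ.tendsto_atTop
  have hval : Lam ρ k χ (moll ε v) = c := by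
    have t1 := lim_traj hT hkc hχ hε hXφ hv hc
    refine tendsto_nhds_unique t1 ?_
    have : ∀ j, Lam ρ k χ (moll ε (shift (X (φ j)) vh)) = c := fun j => hXc (φ j)
    simp_rw [this]
    exact tendsto_const_nhds
  have hvl := abs_le.1 (hclose v hv)
  rw [hval] at hvl
  have hmk := hmono κ k hk hk0 v hv
  have hm0 : ∀ T : ℝ, 0 ≤ T → LamC ρ k χ v ≤ LamC ρ k χ (shift T v) := by
    intro T hT0
    have := hmk hT0
    simp only [shift_zero] at this
    exact this
  by_cases htop : Tendsto (fun j => B (φ j) - X (φ j)) atTop atTop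
  · -- the value stays in [c-e, c+e]
    have hup : ∀ T : ℝ, 0 ≤ T → LamC ρ k χ (shift T v) ≤ c + e := by
      intro T hT0
      have h5 := convD_shift_seq hT hXφ hc (tendsto_const_nhds (x := T))
      have h6 : Tendsto (fun j => X (φ j) + T) atTop atTop :=
        tendsto_atTop_add_const_right _ _ hXφ
      have t1 := lim_traj hT hkc hχ hε h6 (hv.shift T) h5
      have t2 : Lam ρ k χ (moll ε (shift T v)) ≤ c := by
        refine le_of_tendsto t1 ?_
        filter_upwards [htop.eventually_ge_atTop T] with j hj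
        rcases hT0.eq_or_lt with h7 | h7
        · rw [← h7, add_zero]
          exact (hXc (φ j)).le
        · exact (hlast (φ j) _ (by linarith) (by linarith)).le
      have := abs_le.1 (hclose _ (hv.shift T))
      linarith [this.1]
    -- limit as T → ∞
    obtain ⟨φ2, hφ2, w, hw, hwc⟩ := compact_cls hh (fun n : ℕ => shift (n : ℝ) v)
      (fun n => hv.shift _)
    have hk1 : KB 1 (fun _ : ℝ => (1 : ℝ)) := ⟨contDiff_const, fun s => by simp, fun s => by simp⟩
    set F1 : ℝ → ℝ := fun T => LamC ρ (fun _ => 1) χ (shift T v) with hF1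
    have hF1m : Monotone F1 := hmono 1 _ hk1 (fun _ => zero_le_one) v hv
    obtain ⟨Ms, -, hMs⟩ := small hh hχ hM h3
    have hbdd : BddAbove (Set.range F1) := by
      refine ⟨Ms * Real.sqrt (∫ s in (0 : ℝ)..Ms, (1 : ℝ)), ?_⟩
      rintro y ⟨T, rfl⟩
      exact (le_abs_self _).trans
        (hMs 1 (fun _ => 1) hk1 (fun s => ⟨zero_le_one, le_rfl⟩) _ (hv.shift T))
    have hF1l := tendsto_atTop_ciSup hF1m hbdd
    have hφr : Tendsto (fun n => ((φ2 n : ℕ) : ℝ)) atTop atTop :=
      tendsto_natCast_atTop_atTop.comp hφ2.tendsto_atTop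
    have hconst : ∀ Y : ℝ, LamC ρ (fun _ => 1) χ (shift Y w) = ⨆ T, F1 T := by
      intro Y
      have t1 : Tendsto (fun n => LamC ρ (fun _ => 1) χ (shift Y (shift ((φ2 n : ℕ) : ℝ) v)))
          atTop (𝓝 (LamC ρ (fun _ => 1) χ (shift Y w))) := by
        refine contC hM hk1 hχ (fun n => (hv.shift _).shift Y) (hw.shift Y) ?_
        intro z
        exact hwc (z.1 + Y, z.2)
      have t2 : Tendsto (fun n => F1 (Y + ((φ2 n : ℕ) : ℝ))) atTop (𝓝 (⨆ T, F1 T)) :=
        hF1l.comp (tendsto_atTop_add_const_left _ _ hφr)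
      refine tendsto_nhds_unique t1 (t2.congr fun n => ?_)
      rw [hF1]
      simp only
      rw [shift_shift]
    have hind := hrig w hw (fun Y => by
      have := hconst 0
      rw [shift_zero] at this
      rw [hconst Y, this])
    have hwg : w = fun z => (fun t => w (0, t)) z.2 := by
      funext ⟨x, t⟩
      exact hind x t
    have hInC : InC ρ C h (fun z => (fun t => w (0, t)) z.2) := by
      rw [← hwg]; exact hw
    apply hg (fun t => w (0, t)) hInC
    have h8 := hom_val hh (k := k) (χ := χ) hkc (g := fun t => w (0, t)) hInC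
    rw [hχ1, one_mul, ← hwg] at h8
    rw [← h8]
    have t3 : Tendsto (fun n => LamC ρ k χ (shift ((φ2 n : ℕ) : ℝ) v)) atTop
        (𝓝 (LamC ρ k χ w)) := contC hM hk hχ (fun n => hv.shift _) hw hwc
    constructor
    · refine ge_of_tendsto t3 (Eventually.of_forall fun n => ?_)
      have := hm0 ((φ2 n : ℕ) : ℝ) (Nat.cast_nonneg _)
      linarith [hvl.2]
    · exact le_of_tendsto t3 (Eventually.of_forall fun n => hup _ (Nat.cast_nonneg _))
  · -- bounded subsequence
    rw [tendsto_atTop] at htop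
    push Not at htop
    obtain ⟨R, hR⟩ := htop
    have hfr : ∃ᶠ j in atTop, B (φ j) - X (φ j) < R := hR
    obtain ⟨ψ, hψ, hψR⟩ := extraction_of_frequently_atTop hfr
    have hmem : ∀ j, B (φ (ψ j)) - X (φ (ψ j)) ∈ Set.Icc 0 R := fun j =>
      ⟨by linarith [hXB (φ (ψ j))], (hψR j).le⟩
    obtain ⟨T0, hT0, θ, hθ, hTl⟩ := isCompact_Icc.tendsto_subseq hmem
    have hc2 : ConvD (fun j => shift (X (φ (ψ (θ j)))) vh) v :=
      ConvD.subseq (X := fun j => X (φ j)) hc (hψ.tendsto_atTop.comp hθ.tendsto_atTop)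
    have hX2 : Tendsto (fun j => X (φ (ψ (θ j)))) atTop atTop :=
      hXφ.comp (hψ.tendsto_atTop.comp hθ.tendsto_atTop)
    have hc3 := convD_shift_seq hT hX2 hc2 hTl
    have hev : ∀ j, X (φ (ψ (θ j))) + ((fun n => B (φ (ψ n)) - X (φ (ψ n))) ∘ θ) j
        = B (φ (ψ (θ j))) := by
      intro j
      simp only [Function.comp_apply]
      ring
    simp_rw [hev] at hc3
    have hB2 : Tendsto (fun j => B (φ (ψ (θ j)))) atTop atTop :=
      tendsto_atTop_mono (fun j => (hXB _).le) hX2
    have t1 := lim_traj hT hkc hχ hε hB2 (hv.shift T0) hc3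
    have t2 : Lam ρ k χ (moll ε (shift T0 v)) ≤ c - 3 * e := by
      refine le_of_tendsto t1 (Eventually.of_forall fun j => ?_)
      exact (hBc _).le
    have h5 := abs_le.1 (hclose _ (hv.shift T0))
    have h6 := hm0 T0 hT0.1
    linarith [h5.1, hvl.2]

end Pool.Agent.Helper46.FrG
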