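import Pool.Agent.Helper46.FrG.Basic

set_option autoImplicit false

open MeasureTheory Filter Topology

namespace Pool.Agent.Helper46.FrG

open Pool.Agent.Helper42.Fr

variable {ρ : ℝ}

/-- the square box. -/
def BX (R : ℝ) : Set (ℝ × ℝ) := Set.Icc (-R) R ×ˢ Set.Icc (-R) R

lemma isCompact_BX (R : ℝ) : IsCompact (BX R) := isCompact_Icc.prod isCompact_Icc

lemma supp_box {g : ℝ × ℝ → ℝ} (hc : HasCompactSupport g) :
    ∃ S : ℝ, 0 ≤ S ∧ ∀ w : ℝ × ℝ, g w ≠ 0 → |w.1| ≤ S ∧ |w.2| ≤ S := by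
  obtain ⟨S, hS⟩ := hc.isBounded.subset_closedBall (0 : ℝ × ℝ)
  refine ⟨|S|, abs_nonneg _, fun w hw => ?_⟩
  have h1 : w ∈ Metric.closedBall (0 : ℝ × ℝ) S := hS (subset_tsupport _ hw)
  rw [mem_closedBall_zero_iff, Prod.norm_def] at h1
  have h2 := le_trans h1 (le_abs_self S)
  exact ⟨(le_max_left _ _).trans h2, (le_max_right _ _).trans h2⟩

lemma cv_bound_box {g : ℝ × ℝ → ℝ} (hg : Continuous g) (hc : HasCompactSupport g) (R : ℝ) :
    ∃ R' B : ℝ, 0 ≤ B ∧ ∀ f : ℝ × ℝ → ℝ, LocallyIntegrable f → ∀ x t : ℝ, |x| ≤ R →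
      t ∈ Set.Icc (0 : ℝ) (2 * Real.pi) → |cv f g (x, t)| ≤ B * ∫ w in BX R', |f w| := by
  obtain ⟨S, hS0, hS⟩ := supp_box hc
  obtain ⟨B, hB⟩ := hc.exists_bound_of_continuous hg
  have hB0 : 0 ≤ B := (norm_nonneg _).trans (hB 0)
  refine ⟨max R (2 * Real.pi) + S, B, hB0, fun f hf x t hx ht => ?_⟩
  set R' := max R (2 * Real.pi) + S
  have hint : IntegrableOn (fun w => |f w|) (BX R') :=
    (hf.integrableOn_isCompact (isCompact_BX R')).abs
  unfold cv
  have h1 : ∀ w : ℝ × ℝ, ‖f w * g ((x, t) - w)‖ ≤ (BX R').indicator (fun w => B * |f w|) w := by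
    intro w
    by_cases hw : g ((x, t) - w) = 0
    · rw [hw, mul_zero, norm_zero]
      exact Set.indicator_nonneg (fun w _ => mul_nonneg hB0 (abs_nonneg _)) w
    · have h2 := hS _ hw
      have h3 : w ∈ BX R' := by
        have ha : |w.1| ≤ R' := by
          have e : w.1 = x - ((x, t) - w).1 := by simp
          rw [e]
          calc |x - ((x, t) - w).1| ≤ |x| + |((x, t) - w).1| := abs_sub _ _
            _ ≤ max R (2 * Real.pi) + S := add_le_add (hx.trans (le_max_left _ _)) h2.1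
        have hb : |w.2| ≤ R' := by
          have e : w.2 = t - ((x, t) - w).2 := by simp
          rw [e]
          have ht' : |t| ≤ 2 * Real.pi := abs_le.2 ⟨by linarith [ht.1, Real.pi_pos], ht.2⟩
          calc |t - ((x, t) - w).2| ≤ |t| + |((x, t) - w).2| := abs_sub _ _
            _ ≤ max R (2 * Real.pi) + S := add_le_add (ht'.trans (le_max_right _ _)) h2.2
        exact ⟨abs_le.1 ha, abs_le.1 hb⟩
      rw [Set.indicator_of_mem h3, norm_mul, mul_comm]
      exact mul_le_mul (hB _) (le_of_eq (Real.norm_eq_abs _)) (norm_nonneg _) hB0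
  have h4 : Integrable ((BX R').indicator (fun w => B * |f w|)) := by
    rw [integrable_indicator_iff (isCompact_BX R').measurableSet]
    exact hint.const_mul B
  have h5 := norm_integral_le_of_norm_le h4 (Eventually.of_forall h1)
  rw [integral_indicator (isCompact_BX R').measurableSet, integral_const_mul] at h5
  rwa [Real.norm_eq_abs] at h5

lemma cv_tendsto {ι : Type*} {l : Filter ι} {fs : ι → ℝ × ℝ → ℝ} {v g : ℝ × ℝ → ℝ}
    (hconv : ∀ ψ : ℝ × ℝ → ℝ, Continuous ψ → HasCompactSupport ψ →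
      Tendsto (fun i => ∫ z, fs i z * ψ z) l (𝓝 (∫ z, v z * ψ z)))
    (hg : Continuous g) (hc : HasCompactSupport g) (z : ℝ × ℝ) :
    Tendsto (fun i => cv (fs i) g z) l (𝓝 (cv v g z)) := by
  refine hconv (fun w => g (z - w)) (hg.comp (by fun_prop)) ?_
  exact hc.comp_homeomorph (Homeomorph.subLeft z)

/-- general convergence of the functionals of mollifications. -/
theorem Lam_moll_tendsto {k χ : ℝ → ℝ} (hk : Continuous k) (hχ : IsCut χ) {ι : Type*}
    {l : Filter ι} [l.IsCountablyGenerated] {fs : ι → ℝ × ℝ → ℝ} {v : ℝ × ℝ → ℝ}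
    (hfs : ∀ᶠ i in l, LocallyIntegrable (fs i)) (hv : LocallyIntegrable v)
    (hconv : ∀ ψ : ℝ × ℝ → ℝ, Continuous ψ → HasCompactSupport ψ →
      Tendsto (fun i => ∫ z, fs i z * ψ z) l (𝓝 (∫ z, v z * ψ z)))
    (hb : ∀ R : ℝ, ∃ M : ℝ, ∀ᶠ i in l, ∫ z in BX R, |fs i z| ≤ M)
    {ε : ℝ} (hε : 0 < ε) :
    Tendsto (fun i => Lam ρ k χ (moll ε (fs i))) l (𝓝 (Lam ρ k χ (moll ε v))) := by
  have hks := ker_smooth ε
  have hkc := ker_cpt hε
  -- uniform bounds for the four convolutions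
  obtain ⟨R, hR⟩ := XS.of_fst hχ.cpt
  have bound : ∀ g : ℝ × ℝ → ℝ, Continuous g → HasCompactSupport g →
      ∃ B : ℝ, 0 ≤ B ∧ ∀ᶠ i in l, ∀ x t : ℝ, |x| ≤ R → t ∈ Set.Icc (0 : ℝ) (2 * Real.pi) →
        |cv (fs i) g (x, t)| ≤ B := by
    intro g hg hc
    obtain ⟨R', B, hB0, hB⟩ := cv_bound_box hg hc R
    obtain ⟨M, hM⟩ := hb R'
    refine ⟨B * |M|, mul_nonneg hB0 (abs_nonneg _), ?_⟩
    filter_upwards [hM, hfs] with i hi hfi x t hx ht
    exact (hB _ hfi x t hx ht).trans (mul_le_mul_of_nonneg_left (hi.trans (le_abs_self _)) hB0)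
  obtain ⟨B0, hB00, hB0⟩ := bound (ker ε) hks.cont hkc
  obtain ⟨B1, hB10, hB1⟩ := bound (dX (ker ε)) hks.dX.cont (cpt_dX hkc)
  obtain ⟨B2, hB20, hB2⟩ := bound (dT (ker ε)) hks.dT.cont (cpt_dT hkc)
  obtain ⟨B3, hB30, hB3⟩ := bound (dT (dX (ker ε))) hks.dX.dT.cont (cpt_dT (cpt_dX hkc))
  set B := |ρ| * B0 + B1 + B2 + |ρ| * B2 + B3 with hBdef
  obtain ⟨M, hM⟩ := Fden_bdd (ρ := ρ) hk B
  obtain ⟨Mχ, hMχ⟩ := hχ.cpt.exists_bound_of_continuous hχ.smooth.continuous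
  have hMχ0 : 0 ≤ Mχ := (norm_nonneg _).trans (hMχ 0)
  -- derivative formulas
  have dd : ∀ f : ℝ × ℝ → ℝ, LocallyIntegrable f → ∀ z, FF ρ k (moll ε f) z
      = Fden ρ k (ρ * cv f (ker ε) z + cv f (dX (ker ε)) z) (cv f (dT (ker ε)) z)
        (ρ * cv f (dT (ker ε)) z + cv f (dT (dX (ker ε))) z) := by
    intro f hf z
    unfold FF
    rw [moll_eq, dX_cv hf hks hkc, dT_cv hf hks hkc, dT_cv hf hks.dX (cpt_dX hkc)]
  have hJv : Lam ρ k χ (moll ε v) = J (fun z => χ z.1 * FF ρ k (moll ε v) z) :=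
    Lam_eq_J hk hχ (moll_smooth hε hv)
  have hJi : (fun i => Lam ρ k χ (moll ε (fs i))) =ᶠ[l]
      fun i => J (fun z => χ z.1 * FF ρ k (moll ε (fs i)) z) := by
    filter_upwards [hfs] with i hi
    exact Lam_eq_J hk hχ (moll_smooth hε hi)
  rw [hJv]
  refine Tendsto.congr' hJi.symm ?_
  refine J_tendsto R (Mχ * |M|) ?_ ?_ ?_ ?_
  · filter_upwards [hfs] with i hi
    exact (cx_Lam hk hχ (moll_smooth hε hi)).cont
  · refine Eventually.of_forall fun i x t hx => ?_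
    have := hR x t hx
    simp only at this
    simp [this]
  · filter_upwards [hfs, hB0, hB1, hB2, hB3] with i hi h0 h1 h2 h3 x t hx ht
    rw [abs_mul, dd _ hi]
    have e0 := h0 x t hx ht
    have e1 := h1 x t hx ht
    have e2 := h2 x t hx ht
    have e3 := h3 x t hx ht
    have hρ := abs_nonneg ρ
    have f0 : |ρ * cv (fs i) (ker ε) (x, t)| ≤ |ρ| * B0 := by
      rw [abs_mul]; exact mul_le_mul_of_nonneg_left e0 hρ
    have f2 : |ρ * cv (fs i) (dT (ker ε)) (x, t)| ≤ |ρ| * B2 := by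
      rw [abs_mul]; exact mul_le_mul_of_nonneg_left e2 hρ
    have g0 : 0 ≤ |ρ| * B0 := mul_nonneg hρ hB00
    have g2 : 0 ≤ |ρ| * B2 := mul_nonneg hρ hB20
    refine mul_le_mul ?_ ?_ (abs_nonneg _) hMχ0
    · have := hMχ x
      rwa [Real.norm_eq_abs] at this
    · refine (hM _ _ _ ?_ ?_ ?_).trans (le_abs_self _)
      · refine (abs_add_le _ _).trans ?_
        rw [hBdef]; linarith
      · rw [hBdef]; linarith
      · refine (abs_add_le _ _).trans ?_
        rw [hBdef]; linarith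
  · intro x t
    refine Tendsto.const_mul _ ?_
    rw [dd _ hv]
    have hev : (fun i => FF ρ k (moll ε (fs i)) (x, t)) =ᶠ[l] fun i =>
        Fden ρ k (ρ * cv (fs i) (ker ε) (x, t) + cv (fs i) (dX (ker ε)) (x, t))
          (cv (fs i) (dT (ker ε)) (x, t))
          (ρ * cv (fs i) (dT (ker ε)) (x, t) + cv (fs i) (dT (dX (ker ε))) (x, t)) := by
      filter_upwards [hfs] with i hi
      exact dd _ hi _
    refine Tendsto.congr' hev.symm ?_
    have t0 := cv_tendsto hconv hks.cont hkc (x, t)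
    have t1 := cv_tendsto hconv hks.dX.cont (cpt_dX hkc) (x, t)
    have t2 := cv_tendsto hconv hks.dT.cont (cpt_dT hkc) (x, t)
    have t3 := cv_tendsto hconv hks.dX.dT.cont (cpt_dT (cpt_dX hkc)) (x, t)
    exact Fden_tendsto hk ((t0.const_mul ρ).add t1) t2 ((t2.const_mul ρ).add t3)

/-- local L1 bound for translates. -/
lemma traj_l1 {C : ℝ} {h : ℝ → ℝ} {vh : ℝ × ℝ → ℝ} (hT : Traj ρ C h vh) {X : ℕ → ℝ}
    (hX : Tendsto X atTop atTop) (R : ℝ) :
    ∃ M : ℝ, ∀ᶠ j in atTop, ∫ z in BX R, |shift (X j) vh z| ≤ M := by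
  obtain ⟨M, X₀, hM⟩ := hT.l1 R
  refine ⟨M, ?_⟩
  filter_upwards [hX.eventually_ge_atTop X₀] with j hj
  exact hM _ hj

lemma locInt_shift {vh : ℝ × ℝ → ℝ} (hL : LocallyIntegrable vh) (X : ℝ) :
    LocallyIntegrable (shift X vh) := by
  have hmp : MeasurePreserving (fun z : ℝ × ℝ => z + ((X, 0) : ℝ × ℝ)) volume volume :=
    measurePreserving_add_right volume _
  have e : shift X vh = vh ∘ (fun z : ℝ × ℝ => z + ((X, 0) : ℝ × ℝ)) := by
    funext z
    simp [shift, Prod.add_def]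
  rw [locallyIntegrable_iff]
  intro K hK
  rw [e]
  have h1 : IntegrableOn vh ((fun z : ℝ × ℝ => z + ((X, 0) : ℝ × ℝ)) '' K) :=
    hL.integrableOn_isCompact (hK.image (by fun_prop))
  have h2 := (hmp.integrableOn_image (MeasurableEquiv.addRight ((X, 0) : ℝ × ℝ)).measurableEmbedding
    (f := vh) (s := K)).1 h1
  exact h2

/-- (G0) limits of the functional along trajectories. -/
theorem lim_traj {C : ℝ} {h : ℝ → ℝ} {vh : ℝ × ℝ → ℝ} (hT : Traj ρ C h vh) {k χ : ℝ → ℝ}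
    (hk : Continuous k) (hχ : IsCut χ) {ε : ℝ} (hε : 0 < ε)
    {X : ℕ → ℝ} (hX : Tendsto X atTop atTop) {v : ℝ × ℝ → ℝ} (hv : InC ρ C h v)
    (hc : ConvD (fun j => shift (X j) vh) v) :
    Tendsto (fun j => Lam ρ k χ (moll ε (shift (X j) vh))) atTop (𝓝 (Lam ρ k χ (moll ε v))) :=
  Lam_moll_tendsto hk hχ (Eventually.of_forall fun j => locInt_shift hT.locInt (X j))
    hv.locInt hc (traj_l1 hT hX) hε

end Pool.Agent.Helper46.FrG
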