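import Pool.Agent.Helper46.FrG.Level

set_option autoImplicit false

open MeasureTheory Filter Topology

namespace Pool.Agent.Helper46.FrG

open Pool.Agent.Helper42.Fr

variable {ρ C : ℝ} {h : ℝ → ℝ} {vh : ℝ × ℝ → ℝ}

/-- finiteness of the values of exp(i lamH) near `t₀`. -/
def FinVal (ρ C : ℝ) (h : ℝ → ℝ) (t₀ : ℝ) : Prop :=
  ∃ S : Finset ℂ, ∀ ε : ℝ, 0 < ε → ∃ δ₀ : ℝ, 0 < δ₀ ∧
      ∀ δ : ℝ, 0 < δ → δ < δ₀ → ∀ g : ℝ → ℝ, InC ρ C h (fun z => g z.2) →
          ∃ s ∈ S, ‖Complex.exp (Complex.I * (lamH ρ (kth δ t₀) g : ℂ)) - s‖ ≤ ε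

/-- chord versus arc. -/
lemma chord {x y : ℝ} (hxy : |x - y| ≤ 1) :
    |x - y| / 2 ≤ ‖Complex.exp (Complex.I * (x : ℂ)) - Complex.exp (Complex.I * (y : ℂ))‖ := by
  have e1 : Complex.exp (Complex.I * (x : ℂ)) - Complex.exp (Complex.I * (y : ℂ))
      = Complex.exp (Complex.I * (y : ℂ)) * (Complex.exp (Complex.I * ((x - y : ℝ) : ℂ)) - 1) := by
    rw [mul_sub, ← Complex.exp_add, mul_one]
    congr 2
    push_cast
    ring
  have e2 : ‖Complex.exp (Complex.I * (y : ℂ))‖ = 1 := by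
    rw [mul_comm]; exact Complex.norm_exp_ofReal_mul_I y
  rw [e1, norm_mul, e2, one_mul, Complex.norm_exp_I_mul_ofReal_sub_one, norm_mul]
  have h2 : |x - y| / 4 ≤ |Real.sin ((x - y) / 2)| := by
    have h3 : |Real.sin ((x - y) / 2)| = Real.sin (|x - y| / 2) := by
      rcases le_total 0 (x - y) with h4 | h4
      · rw [abs_of_nonneg h4, abs_of_nonneg]
        apply Real.sin_nonneg_of_nonneg_of_le_pi (by linarith)
        rw [abs_of_nonneg h4] at hxy
        linarith [Real.pi_gt_three]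
      · rw [abs_of_nonpos h4, neg_div, Real.sin_neg, abs_of_nonpos]
        have : 0 ≤ Real.sin (-((x - y) / 2)) := by
          apply Real.sin_nonneg_of_nonneg_of_le_pi (by linarith)
          rw [abs_of_nonpos h4] at hxy
          linarith [Real.pi_gt_three]
        rw [Real.sin_neg] at this
        linarith
    rw [h3]
    have h5 := Real.mul_le_sin (x := |x - y| / 2) (by positivity)
      (by linarith [Real.pi_gt_three])
    refine le_trans ?_ h5
    have h6 : (1 : ℝ) / 2 ≤ 2 / Real.pi := by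
      rw [div_le_div_iff₀ (by norm_num) Real.pi_pos]
      linarith [Real.pi_le_four]
    calc |x - y| / 4 = 1 / 2 * (|x - y| / 2) := by ring
      _ ≤ 2 / Real.pi * (|x - y| / 2) := mul_le_mul_of_nonneg_right h6 (by positivity)
  have h7 : ‖(2 : ℝ)‖ = 2 := by norm_num
  rw [h7, Real.norm_eq_abs]
  linarith

lemma deriv_bounded {f : ℝ → ℝ} (hf : ContDiff ℝ (⊤ : ℕ∞) f) (hc : HasCompactSupport f) :
    ∃ B : ℝ, ∀ s, |f s| ≤ B ∧ |deriv f s| ≤ B := by
  obtain ⟨B1, h1⟩ := hc.exists_bound_of_continuous hf.continuous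
  obtain ⟨B2, h2⟩ := hc.deriv.exists_bound_of_continuous (hf.continuous_deriv (by simp))
  refine ⟨max B1 B2, fun s => ⟨?_, ?_⟩⟩
  · exact (h1 s).trans (le_max_left _ _)
  · exact (h2 s).trans (le_max_right _ _)

lemma kth_smooth (δ t₀ : ℝ) : ContDiff ℝ (⊤ : ℕ∞) (kth δ t₀) :=
  contDiff_const.mul ((etaS_smooth δ).comp (contDiff_id.sub contDiff_const))

lemma kth_nonneg {δ : ℝ} (hδ : 0 < δ) (t₀ s : ℝ) : 0 ≤ kth δ t₀ s :=
  mul_nonneg (by norm_num) (etaS_nonneg hδ _)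

/-- the bound is uniform in the centre. -/
lemma kth_KB {δ : ℝ} (hδ : 0 < δ) : ∃ κ : ℝ, ∀ t₀, KB κ (kth δ t₀) := by
  obtain ⟨B, hB⟩ := deriv_bounded (etaS_smooth δ) (etaS_cpt hδ)
  refine ⟨2 * B, fun t₀ => ⟨kth_smooth δ t₀, fun s => ?_, fun s => ?_⟩⟩
  · unfold kth
    rw [abs_mul, abs_of_pos (by norm_num : (0 : ℝ) < 2)]
    have := (hB (s - t₀)).1
    linarith
  · have h1 : HasDerivAt (etaS δ) (deriv (etaS δ) (s - t₀)) (s - t₀) :=
      ((etaS_smooth δ).differentiable (by simp) _).hasDerivAt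
    have h2 : HasDerivAt (kth δ t₀) (2 * deriv (etaS δ) (s - t₀)) s :=
      (h1.comp_sub_const s t₀).const_mul 2
    rw [h2.deriv, abs_mul, abs_of_pos (by norm_num : (0 : ℝ) < 2)]
    have := (hB (s - t₀)).2
    linarith

/-- (G2) the oscillation over the limit set tends to zero. -/
theorem osc_small (hh : IndH ρ C h) (hT : Traj ρ C h vh) {χ : ℝ → ℝ} (hχ : IsCut χ)
    (hχ1 : ∫ x, χ x = 1) (hM : ModA ρ C h χ) (h3 : A3A ρ C h χ) (hmono : MonoA ρ C h χ)
    (hrig : RigidA ρ C h χ) {t₀ : ℝ} (hF : FinVal ρ C h t₀) {η : ℝ} (hη : 0 < η) :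
    ∃ δ₁ : ℝ, 0 < δ₁ ∧ ∀ δ : ℝ, 0 < δ → δ < δ₁ → ∀ v1 v2 : ℝ × ℝ → ℝ,
      LimSet ρ C h vh v1 → LimSet ρ C h vh v2 →
      LamC ρ (kth δ t₀) χ v2 ≤ LamC ρ (kth δ t₀) χ v1 + η := by
  obtain ⟨S, hS⟩ := hF
  set N : ℕ := S.card with hN
  set η' := min η 1 with hη'
  have hη'0 : 0 < η' := lt_min hη one_pos
  have hη'1 : η' ≤ 1 := min_le_right _ _
  have hη'η : η' ≤ η := min_le_left _ _
  set gap := η' / (N + 2) with hgap
  have hN2 : (0 : ℝ) < (N : ℝ) + 2 := by positivity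
  have hgap0 : 0 < gap := div_pos hη'0 hN2
  have hgapN : gap * (N + 2) = η' := by rw [hgap]; field_simp
  set e := gap / 8 with he
  have he0 : 0 < e := by positivity
  obtain ⟨δ₁, hδ₁, hδ⟩ := hS (gap / 8) (by positivity)
  refine ⟨δ₁, hδ₁, fun δ hδ0 hδlt v1 v2 hv1 hv2 => ?_⟩
  by_contra hcon
  push Not at hcon
  set a := LamC ρ (kth δ t₀) χ v1 with ha
  obtain ⟨κ, hκ⟩ := kth_KB hδ0
  -- candidates
  set c : ℕ → ℝ := fun i => a + gap * (i + 1) with hcdef
  have hbad : ∀ i ∈ Finset.range (N + 1), ∃ g : ℝ → ℝ, InC ρ C h (fun z => g z.2) ∧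
      lamH ρ (kth δ t₀) g ∈ Set.Icc (c i - e) (c i + e) := by
    intro i hi
    by_contra hno
    push Not at hno
    have hi' : (i : ℝ) ≤ N := by
      have := Finset.mem_range.1 hi
      exact_mod_cast Nat.lt_succ_iff.1 this
    refine level hh hT hχ hχ1 hM h3 hmono hrig (hκ t₀) (kth_nonneg hδ0 t₀) hv1 hv2 he0
      (c := c i) ?_ ?_ hno
    · show a < c i - 4 * e
      rw [hcdef, he]
      simp only
      have : (0 : ℝ) ≤ i := Nat.cast_nonneg i
      nlinarith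
    · have h5 : c i + 4 * e < a + η' := by
        rw [hcdef, he]
        simp only
        have : gap * ((i : ℝ) + 1) ≤ gap * (N + 1) := mul_le_mul_of_nonneg_left (by linarith) hgap0.le
        nlinarith
      linarith
  choose! g hg1 hg2 using hbad
  have hs : ∀ i ∈ Finset.range (N + 1), ∃ s ∈ S,
      ‖Complex.exp (Complex.I * (lamH ρ (kth δ t₀) (g i) : ℂ)) - s‖ ≤ gap / 8 :=
    fun i hi => hδ δ hδ0 hδlt (g i) (hg1 i hi)
  choose! s hs1 hs2 using hs
  have hcard : S.card < (Finset.range (N + 1)).card := by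
    rw [Finset.card_range]; omega
  obtain ⟨i, hi, j, hj, hij, hsij⟩ := Finset.exists_ne_map_eq_of_card_lt_of_maps_to hcard hs1
  -- distances
  wlog hlt : i < j generalizing i j
  · exact this j hj i hi hij.symm hsij.symm (lt_of_le_of_ne (not_lt.1 hlt) hij.symm)
  have hij1 : (i : ℝ) + 1 ≤ j := by exact_mod_cast hlt
  have hjN : (j : ℝ) ≤ N := by
    have := Finset.mem_range.1 hj
    exact_mod_cast Nat.lt_succ_iff.1 this
  have hi0 : (0 : ℝ) ≤ i := Nat.cast_nonneg i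
  have hgi := hg2 i hi
  have hgj := hg2 j hj
  set li := lamH ρ (kth δ t₀) (g i) with hli
  set lj := lamH ρ (kth δ t₀) (g j) with hlj
  have hd1 : gap - 2 * e ≤ lj - li := by
    have h6 := hgi.2
    have h7 := hgj.1
    rw [hcdef] at h6 h7
    simp only at h6 h7
    nlinarith
  have hd2 : lj - li ≤ 1 := by
    have h6 := hgi.1
    have h7 := hgj.2
    rw [hcdef] at h6 h7
    simp only at h6 h7
    have : gap * ((j : ℝ) + 1) - gap * ((i : ℝ) + 1) ≤ gap * N := by nlinarith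
    rw [he] at h6 h7
    nlinarith
  have hpos : 0 < lj - li := by rw [he] at hd1; linarith
  have hch := chord (x := lj) (y := li) (by rw [abs_of_pos hpos]; exact hd2)
  rw [abs_of_pos hpos] at hch
  have h8 := hs2 i hi
  have h9 := hs2 j hj
  rw [← hsij] at h9
  have h10 : ‖Complex.exp (Complex.I * (lj : ℂ)) - Complex.exp (Complex.I * (li : ℂ))‖
      ≤ gap / 8 + gap / 8 := by
    calc ‖Complex.exp (Complex.I * (lj : ℂ)) - Complex.exp (Complex.I * (li : ℂ))‖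
        = ‖(Complex.exp (Complex.I * (lj : ℂ)) - s i) - (Complex.exp (Complex.I * (li : ℂ)) - s i)‖ := by
          congr 1; ring
      _ ≤ ‖Complex.exp (Complex.I * (lj : ℂ)) - s i‖ + ‖Complex.exp (Complex.I * (li : ℂ)) - s i‖ :=
          norm_sub_le _ _
      _ ≤ gap / 8 + gap / 8 := add_le_add h9 h8
  rw [he] at hd1
  linarith

end Pool.Agent.Helper46.FrG
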