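import Pool.Agent.Helper46.FrG.Hom

set_option autoImplicit false

open MeasureTheory Filter Topology

namespace Pool.Agent.Helper46.FrG

open Pool.Agent.Helper42.Fr

variable {ρ C : ℝ} {h : ℝ → ℝ}

/-- the L2 bound of block A. -/
def A3A (ρ C : ℝ) (h χ : ℝ → ℝ) : Prop := ∃ M : ℝ, ∀ v, InC ρ C h v → ∀ ε : ℝ, 0 < ε → ε < 1 →
  J (fun z => χ z.1 * (dT (dX (moll ε v)) z) ^ 2) ≤ M

lemma KK_nonneg {k : ℝ → ℝ} (h0 : ∀ s, 0 ≤ k s) {s : ℝ} (hs : 0 ≤ s) : 0 ≤ KK k s :=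
  intervalIntegral.integral_nonneg hs fun t _ => h0 t

lemma KK_mono {k : ℝ → ℝ} (hk : Continuous k) (h0 : ∀ s, 0 ≤ k s) : Monotone (KK k) := by
  intro s t hst
  have h1 : KK k t - KK k s = ∫ u in s..t, k u :=
    intervalIntegral.integral_interval_sub_left (hk.intervalIntegrable _ _)
      (hk.intervalIntegrable _ _)
  have h2 : 0 ≤ ∫ u in s..t, k u := intervalIntegral.integral_nonneg hst fun u _ => h0 u
  linarith

lemma KK_le {k : ℝ → ℝ} (hk : Continuous k) (h1 : ∀ s, k s ≤ 1) {s : ℝ} (hs : 0 ≤ s) :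
    KK k s ≤ s := by
  have : KK k s ≤ ∫ _ in (0 : ℝ)..s, (1 : ℝ) :=
    intervalIntegral.integral_mono_on hs (hk.intervalIntegrable _ _)
      intervalIntegrable_const fun x _ => h1 x
  simpa using this

lemma KK_hasDeriv {k : ℝ → ℝ} (hk : Continuous k) (s : ℝ) : HasDerivAt (KK k) (k s) s :=
  intervalIntegral.integral_hasDerivAt_right (hk.intervalIntegrable _ _)
    (hk.stronglyMeasurableAtFilter _ _) hk.continuousAt

lemma tau_int (hρ : 0 < ρ) {k : ℝ → ℝ} (hk : Continuous k) (p Q : ℝ) :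
    ∫ τ in (0 : ℝ)..Q, τ * k ((p ^ 2 + τ ^ 2) / ρ ^ 2)
      = ρ ^ 2 / 2 * (KK k ((p ^ 2 + Q ^ 2) / ρ ^ 2) - KK k (p ^ 2 / ρ ^ 2)) := by
  have hd : ∀ τ ∈ Set.uIcc 0 Q, HasDerivAt (fun τ => ρ ^ 2 / 2 * KK k ((p ^ 2 + τ ^ 2) / ρ ^ 2))
      (τ * k ((p ^ 2 + τ ^ 2) / ρ ^ 2)) τ := by
    intro τ _
    have h1 : HasDerivAt (fun τ : ℝ => (p ^ 2 + τ ^ 2) / ρ ^ 2) (2 * τ / ρ ^ 2) τ := by
      have := ((hasDerivAt_pow 2 τ).const_add (p ^ 2)).div_const (ρ ^ 2)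
      simpa using this
    have h2 := ((KK_hasDeriv hk ((p ^ 2 + τ ^ 2) / ρ ^ 2)).comp τ h1).const_mul (ρ ^ 2 / 2)
    have e : ρ ^ 2 / 2 * (k ((p ^ 2 + τ ^ 2) / ρ ^ 2) * (2 * τ / ρ ^ 2))
        = τ * k ((p ^ 2 + τ ^ 2) / ρ ^ 2) := by
      field_simp
    rw [e] at h2
    exact h2
  rw [intervalIntegral.integral_eq_sub_of_hasDerivAt hd]
  · simp only [ne_eq, OfNat.ofNat_ne_zero, not_false_eq_true, zero_pow, add_zero]
    ring
  · apply Continuous.intervalIntegrable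
    fun_prop

lemma even_int {f : ℝ → ℝ} (hf : ∀ x, f (-x) = f x) (h0 : ∀ x, 0 ≤ f x) (q : ℝ) :
    |∫ τ in (0 : ℝ)..q, f τ| = ∫ τ in (0 : ℝ)..|q|, f τ := by
  rcases le_total 0 q with hq | hq
  · rw [abs_of_nonneg hq, abs_of_nonneg]
    exact intervalIntegral.integral_nonneg hq fun t _ => h0 t
  · rw [abs_of_nonpos hq]
    have h1 : ∫ τ in (0 : ℝ)..q, f τ = - ∫ τ in (0 : ℝ)..(-q), f τ := by
      have h2 : ∫ τ in (0 : ℝ)..(-q), f (-τ) = ∫ τ in (-(-q))..(-0), f τ :=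
        intervalIntegral.integral_comp_neg f
      simp_rw [hf] at h2
      rw [h2, neg_neg, neg_zero, intervalIntegral.integral_symm]
    rw [h1, abs_neg, abs_of_nonneg]
    exact intervalIntegral.integral_nonneg (by linarith) fun t _ => h0 t

lemma theta_aux (hρ : 0 < ρ) {k : ℝ → ℝ} (hk : Continuous k) (h01 : ∀ s, 0 ≤ k s ∧ k s ≤ 1)
    {p q T a : ℝ} (ha : 0 < a) (hT : (p ^ 2 + q ^ 2) / ρ ^ 2 ≤ T) :
    |∫ τ in (0 : ℝ)..q, k ((p ^ 2 + τ ^ 2) / ρ ^ 2)| ≤ a + ρ ^ 2 / (2 * a) * KK k T := by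
  rw [even_int (f := fun τ => k ((p ^ 2 + τ ^ 2) / ρ ^ 2)) (fun x => by simp)
    (fun x => (h01 _).1)]
  set Q := |q| with hQ
  have hQ0 : 0 ≤ Q := abs_nonneg _
  have hQ2 : Q ^ 2 = q ^ 2 := sq_abs q
  have hc : Continuous fun τ : ℝ => k ((p ^ 2 + τ ^ 2) / ρ ^ 2) := by fun_prop
  have hc2 : Continuous fun τ : ℝ => a⁻¹ * (τ * k ((p ^ 2 + τ ^ 2) / ρ ^ 2)) := by fun_prop
  set b := min a Q with hb
  have hb0 : 0 ≤ b := le_min ha.le hQ0
  have hbQ : b ≤ Q := min_le_right _ _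
  have hba : b ≤ a := min_le_left _ _
  have hsplit : ∫ τ in (0 : ℝ)..Q, k ((p ^ 2 + τ ^ 2) / ρ ^ 2)
      = (∫ τ in (0 : ℝ)..b, k ((p ^ 2 + τ ^ 2) / ρ ^ 2))
        + ∫ τ in b..Q, k ((p ^ 2 + τ ^ 2) / ρ ^ 2) :=
    (intervalIntegral.integral_add_adjacent_intervals (hc.intervalIntegrable _ _)
      (hc.intervalIntegrable _ _)).symm
  have h1 : ∫ τ in (0 : ℝ)..b, k ((p ^ 2 + τ ^ 2) / ρ ^ 2) ≤ a := by
    have : ∫ τ in (0 : ℝ)..b, k ((p ^ 2 + τ ^ 2) / ρ ^ 2) ≤ ∫ _ in (0 : ℝ)..b, (1 : ℝ) :=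
      intervalIntegral.integral_mono_on hb0 (hc.intervalIntegrable _ _)
        intervalIntegrable_const fun x _ => (h01 _).2
    simp at this
    linarith
  have h2 : ∫ τ in b..Q, k ((p ^ 2 + τ ^ 2) / ρ ^ 2)
      ≤ ∫ τ in b..Q, a⁻¹ * (τ * k ((p ^ 2 + τ ^ 2) / ρ ^ 2)) := by
    rcases le_total a Q with haQ | haQ
    · have hba' : b = a := min_eq_left haQ
      refine intervalIntegral.integral_mono_on hbQ (hc.intervalIntegrable _ _)
        (hc2.intervalIntegrable _ _) fun x hx => ?_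
      have hx1 : a ≤ x := hba' ▸ hx.1
      have hk0 := (h01 ((p ^ 2 + x ^ 2) / ρ ^ 2)).1
      have : 1 ≤ a⁻¹ * x := by
        rw [inv_mul_eq_div, le_div_iff₀ ha]; linarith
      calc k ((p ^ 2 + x ^ 2) / ρ ^ 2) = 1 * k ((p ^ 2 + x ^ 2) / ρ ^ 2) := by ring
        _ ≤ (a⁻¹ * x) * k ((p ^ 2 + x ^ 2) / ρ ^ 2) := mul_le_mul_of_nonneg_right this hk0
        _ = _ := by ring
    · have hba' : b = Q := min_eq_right haQ
      rw [hba']; simp
  have h3 : ∫ τ in b..Q, a⁻¹ * (τ * k ((p ^ 2 + τ ^ 2) / ρ ^ 2))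
      ≤ ∫ τ in (0 : ℝ)..Q, a⁻¹ * (τ * k ((p ^ 2 + τ ^ 2) / ρ ^ 2)) := by
    have h4 : 0 ≤ ∫ τ in (0 : ℝ)..b, a⁻¹ * (τ * k ((p ^ 2 + τ ^ 2) / ρ ^ 2)) :=
      intervalIntegral.integral_nonneg hb0 fun u hu =>
        mul_nonneg (inv_pos.2 ha).le (mul_nonneg hu.1 (h01 _).1)
    have h5 := intervalIntegral.integral_add_adjacent_intervals
      (hc2.intervalIntegrable (μ := volume) 0 b) (hc2.intervalIntegrable (μ := volume) b Q)
    linarith
  have h6 : ∫ τ in (0 : ℝ)..Q, a⁻¹ * (τ * k ((p ^ 2 + τ ^ 2) / ρ ^ 2))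
      ≤ ρ ^ 2 / (2 * a) * KK k T := by
    rw [intervalIntegral.integral_const_mul, tau_int hρ hk, hQ2]
    have h7 : KK k ((p ^ 2 + q ^ 2) / ρ ^ 2) ≤ KK k T := KK_mono hk (fun s => (h01 s).1) hT
    have h8 : 0 ≤ KK k (p ^ 2 / ρ ^ 2) := KK_nonneg (fun s => (h01 s).1) (by positivity)
    have h9 : a⁻¹ * (ρ ^ 2 / 2 * (KK k ((p ^ 2 + q ^ 2) / ρ ^ 2) - KK k (p ^ 2 / ρ ^ 2)))
        = ρ ^ 2 / (2 * a) * (KK k ((p ^ 2 + q ^ 2) / ρ ^ 2) - KK k (p ^ 2 / ρ ^ 2)) := by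
      field_simp
    rw [h9]
    refine mul_le_mul_of_nonneg_left (by linarith) (by positivity)
  linarith

lemma theta_small (hρ : 0 < ρ) {k : ℝ → ℝ} (hk : Continuous k) (h01 : ∀ s, 0 ≤ k s ∧ k s ≤ 1)
    {p q T : ℝ} (hT : (p ^ 2 + q ^ 2) / ρ ^ 2 ≤ T) :
    |∫ τ in (0 : ℝ)..q, k ((p ^ 2 + τ ^ 2) / ρ ^ 2)| ≤ (1 + ρ ^ 2 / 2) * Real.sqrt (KK k T) := by
  have hT0 : 0 ≤ T := le_trans (by positivity) hT
  have hI0 : 0 ≤ KK k T := KK_nonneg (fun s => (h01 s).1) hT0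
  rcases hI0.eq_or_lt with hI | hI
  · rw [← hI, Real.sqrt_zero, mul_zero]
    apply le_of_forall_pos_le_add
    intro a ha
    have := theta_aux hρ hk h01 ha hT
    rw [← hI, mul_zero, add_zero] at this
    linarith
  · have hs : 0 < Real.sqrt (KK k T) := Real.sqrt_pos.2 hI
    have := theta_aux hρ hk h01 hs hT
    refine this.trans (le_of_eq ?_)
    have hss : Real.sqrt (KK k T) * Real.sqrt (KK k T) = KK k T := Real.mul_self_sqrt hI.le
    have : ρ ^ 2 / (2 * Real.sqrt (KK k T)) * KK k T = ρ ^ 2 / 2 * Real.sqrt (KK k T) := by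
      conv_lhs => rw [← hss]
      rw [show Real.sqrt (Real.sqrt (KK k T) * Real.sqrt (KK k T)) = Real.sqrt (KK k T) by
        rw [hss]]
      field_simp
    rw [this]
    ring

/-- (A10 ii) smallness of the functional. -/
theorem small (hh : IndH ρ C h) {χ : ℝ → ℝ} (hχ : IsCut χ) (hM : ModA ρ C h χ)
    (h3 : A3A ρ C h χ) :
    ∃ M : ℝ, 0 ≤ M ∧ ∀ (κ : ℝ) (k : ℝ → ℝ), KB κ k → (∀ s, 0 ≤ k s ∧ k s ≤ 1) → ∀ v,
      InC ρ C h v → |LamC ρ k χ v| ≤ M * Real.sqrt (∫ s in (0 : ℝ)..M, k s) := by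
  have hρ := hh.rho_pos
  have hC := hh.C_nonneg
  obtain ⟨M3, hM3⟩ := h3
  set T := ((ρ * C + C) ^ 2 + C ^ 2) / ρ ^ 2 with hTdef
  have hT0 : 0 ≤ T := by positivity
  set c := (ρ ^ 2)⁻¹ * (1 + ρ ^ 2 / 2) with hcdef
  have hc0 : 0 ≤ c := by positivity
  set A := ρ / 2 * Real.sqrt T + c * (ρ * C + 1) with hAdef
  have hA0 : 0 ≤ A := by positivity
  set M' := A * J (fun z => χ z.1) + c * |M3| with hM'def
  have hJχ : 0 ≤ J (fun z => χ z.1) := J_nonneg fun z => hχ.nonneg _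
  have hM'0 : 0 ≤ M' := by positivity
  refine ⟨T + M', by positivity, fun κ k hkb h01 v hv => ?_⟩
  have hk : Continuous k := hkb.smooth.continuous
  have hI : KK k T ≤ KK k (T + M') := KK_mono hk (fun s => (h01 s).1) (by linarith)
  have hI0 : 0 ≤ KK k T := KK_nonneg (fun s => (h01 s).1) hT0
  set S := Real.sqrt (KK k T) with hSdef
  have hS0 : 0 ≤ S := Real.sqrt_nonneg _
  -- the bound for mollifications
  have hmoll : ∀ ε : ℝ, 0 < ε → ε < 1 → |Lam ρ k χ (moll ε v)| ≤ M' * S := by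
    intro ε hε hε1
    have hu := moll_smooth hε hv.locInt
    rw [Lam_eq_J hk hχ hu]
    have hcx : CX (fun z => χ z.1) := CX.of_fst hχ.cpt hχ.smooth.continuous
    have hcx2 : CX (fun z => χ z.1 * (dT (dX (moll ε v)) z) ^ 2) :=
      hcx.mul (hu.dX.dT.pow 2).cont
    have hcx3 : CX (fun z => (S * A) * χ z.1 + (S * c) * (χ z.1 * (dT (dX (moll ε v)) z) ^ 2)) :=
      (hcx.const_mul _).add (hcx2.const_mul _)
    have hle : ∀ z, |χ z.1 * FF ρ k (moll ε v) z|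
        ≤ (S * A) * χ z.1 + (S * c) * (χ z.1 * (dT (dX (moll ε v)) z) ^ 2) := by
      intro z
      rw [abs_mul, abs_of_nonneg (hχ.nonneg _)]
      have hkey : |FF ρ k (moll ε v) z| ≤ S * A + S * c * (dT (dX (moll ε v)) z) ^ 2 := by
        unfold FF Fden
        set p := ρ * moll ε v z + dX (moll ε v) z with hp
        set q := dT (moll ε v) z with hq
        set y := dT (dX (moll ε v)) z with hy
        have b0 := moll_bound hε hv.bdd z
        have b1 := moll_dX_le hC hv hε z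
        have b2 : |q| ≤ C := moll_dT_le hC hv hε z
        have bp : |p| ≤ ρ * C + C := by
          rw [hp]
          refine (abs_add_le _ _).trans (add_le_add ?_ b1)
          rw [abs_mul, abs_of_pos hρ]
          exact mul_le_mul_of_nonneg_left b0 hρ.le
        have hT : (p ^ 2 + q ^ 2) / ρ ^ 2 ≤ T := by
          rw [hTdef]
          have e1 : p ^ 2 ≤ (ρ * C + C) ^ 2 := by
            rw [← sq_abs p]; exact pow_le_pow_left₀ (abs_nonneg _) bp 2
          have e2 : q ^ 2 ≤ C ^ 2 := by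
            rw [← sq_abs q]; exact pow_le_pow_left₀ (abs_nonneg _) b2 2
          gcongr
        have hT' : 0 ≤ (p ^ 2 + q ^ 2) / ρ ^ 2 := by positivity
        have t1 : |-(ρ / 2) * KK k ((p ^ 2 + q ^ 2) / ρ ^ 2)| ≤ ρ / 2 * Real.sqrt T * S := by
          rw [abs_mul, abs_neg, abs_of_pos (by positivity : 0 < ρ / 2),
            abs_of_nonneg (KK_nonneg (fun s => (h01 s).1) hT')]
          have e1 : KK k ((p ^ 2 + q ^ 2) / ρ ^ 2) ≤ KK k T := KK_mono hk (fun s => (h01 s).1) hT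
          have e2 : KK k T ≤ Real.sqrt T * S := by
            have e3 : KK k T ≤ T := KK_le hk (fun s => (h01 s).2) hT0
            calc KK k T = S * S := (Real.mul_self_sqrt hI0).symm
              _ ≤ Real.sqrt T * S :=
                mul_le_mul_of_nonneg_right (Real.sqrt_le_sqrt e3) hS0
          rw [mul_assoc]
          exact mul_le_mul_of_nonneg_left (e1.trans e2) (by positivity)
        have t2 : |Theta ρ k p q| ≤ c * S := by
          unfold Theta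
          rw [abs_mul, abs_of_pos (by positivity : 0 < (ρ ^ 2)⁻¹), hcdef, mul_assoc]
          exact mul_le_mul_of_nonneg_left (theta_small hρ hk h01 hT) (by positivity)
        have t3 : |ρ * q + y| ≤ ρ * C + 1 + y ^ 2 := by
          have e1 : |ρ * q| ≤ ρ * C := by
            rw [abs_mul, abs_of_pos hρ]; exact mul_le_mul_of_nonneg_left b2 hρ.le
          have e2 : |y| ≤ 1 + y ^ 2 := by
            nlinarith [abs_nonneg y, sq_abs y, sq_nonneg (|y| - 1)]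
          refine (abs_add_le _ _).trans ?_
          linarith
        calc |-(ρ / 2) * KK k ((p ^ 2 + q ^ 2) / ρ ^ 2) + Theta ρ k p q * (ρ * q + y)|
            ≤ |-(ρ / 2) * KK k ((p ^ 2 + q ^ 2) / ρ ^ 2)| + |Theta ρ k p q * (ρ * q + y)| :=
              abs_add_le _ _
          _ ≤ ρ / 2 * Real.sqrt T * S + c * S * (ρ * C + 1 + y ^ 2) := by
              refine add_le_add t1 ?_
              rw [abs_mul]
              exact mul_le_mul t2 t3 (abs_nonneg _) (by positivity)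
          _ = S * A + S * c * y ^ 2 := by rw [hAdef]; ring
      calc χ z.1 * |FF ρ k (moll ε v) z|
          ≤ χ z.1 * (S * A + S * c * (dT (dX (moll ε v)) z) ^ 2) :=
            mul_le_mul_of_nonneg_left hkey (hχ.nonneg _)
        _ = _ := by ring
    refine (J_abs hcx3 hle).trans ?_
    rw [J_add (hcx.const_mul _) (hcx2.const_mul _), J_const_mul, J_const_mul]
    have hm3 := hM3 v hv ε hε hε1
    have e4 : (S * c) * J (fun z => χ z.1 * (dT (dX (moll ε v)) z) ^ 2) ≤ (S * c) * |M3| :=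
      mul_le_mul_of_nonneg_left (hm3.trans (le_abs_self _)) (by positivity)
    calc S * A * J (fun z => χ z.1) + S * c * J (fun z => χ z.1 * (dT (dX (moll ε v)) z) ^ 2)
        ≤ S * A * J (fun z => χ z.1) + (S * c) * |M3| := by linarith
      _ = M' * S := by rw [hM'def]; ring
  -- pass to the limit
  have hlim : |LamC ρ k χ v| ≤ M' * S := by
    obtain ⟨MA, hMA⟩ := hM κ
    apply le_of_forall_pos_le_add
    intro e he
    obtain ⟨ε, h1, h2, h3⟩ := exists_small_sqrt MA e he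
    have a1 := (hMA k hkb v hv ε h1 h2).trans h3
    have a2 := hmoll ε h1 h2
    have a3 : |LamC ρ k χ v| ≤ |Lam ρ k χ (moll ε v)| + |Lam ρ k χ (moll ε v) - LamC ρ k χ v| := by
      have := abs_sub_abs_le_abs_sub (LamC ρ k χ v) (Lam ρ k χ (moll ε v))
      rw [abs_sub_comm] at this
      linarith
    linarith
  have hS' : S ≤ Real.sqrt (KK k (T + M')) := Real.sqrt_le_sqrt hI
  calc |LamC ρ k χ v| ≤ M' * S := hlim
    _ ≤ (T + M') * Real.sqrt (KK k (T + M')) := by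
      refine mul_le_mul (by linarith) hS' hS0 (by positivity)

end Pool.Agent.Helper46.FrG
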