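import Pool.Agent.Helper46.FrG.Fub

set_option autoImplicit false

open MeasureTheory Filter Topology
open scoped ENNReal

namespace Pool.Agent.Helper46.FrG

open Pool.Agent.Helper42.Fr

variable {ρ C : ℝ} {h : ℝ → ℝ} {vh : ℝ × ℝ → ℝ}

/-! ### additivity in the weight -/

lemma Fden_add {k₁ k₂ : ℝ → ℝ} (h₁ : Continuous k₁) (h₂ : Continuous k₂) (p q r : ℝ) :
    Fden ρ (fun s => k₁ s + k₂ s) p q r = Fden ρ k₁ p q r + Fden ρ k₂ p q r := by
  unfold Fden KK Theta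
  rw [intervalIntegral.integral_add (h₁.intervalIntegrable _ _) (h₂.intervalIntegrable _ _),
    intervalIntegral.integral_add]
  · ring
  · exact (h₁.comp (by fun_prop)).intervalIntegrable _ _
  · exact (h₂.comp (by fun_prop)).intervalIntegrable _ _

lemma Lam_add {k₁ k₂ χ : ℝ → ℝ} (h₁ : Continuous k₁) (h₂ : Continuous k₂) (hχ : IsCut χ)
    {u : ℝ × ℝ → ℝ} (hu : Sm u) :
    Lam ρ (fun s => k₁ s + k₂ s) χ u = Lam ρ k₁ χ u + Lam ρ k₂ χ u := by
  have h12 : Continuous fun s => k₁ s + k₂ s := h₁.add h₂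
  rw [Lam_eq_J h12 hχ hu, Lam_eq_J h₁ hχ hu, Lam_eq_J h₂ hχ hu,
    ← J_add (cx_Lam h₁ hχ hu) (cx_Lam h₂ hχ hu)]
  congr 1; funext z
  unfold FF
  rw [Fden_add h₁ h₂]
  ring

lemma KB.add {κ₁ κ₂ : ℝ} {k₁ k₂ : ℝ → ℝ} (h₁ : KB κ₁ k₁) (h₂ : KB κ₂ k₂) :
    KB (κ₁ + κ₂) (fun s => k₁ s + k₂ s) := by
  refine ⟨h₁.smooth.add h₂.smooth, fun s => (abs_add_le _ _).trans (add_le_add (h₁.b0 s) (h₂.b0 s)),
    fun s => ?_⟩
  have e1 : HasDerivAt k₁ (deriv k₁ s) s := (h₁.smooth.differentiable (by simp) _).hasDerivAt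
  have e2 : HasDerivAt k₂ (deriv k₂ s) s := (h₂.smooth.differentiable (by simp) _).hasDerivAt
  have e3 : HasDerivAt (fun s => k₁ s + k₂ s) (deriv k₁ s + deriv k₂ s) s := e1.add e2
  rw [e3.deriv]
  exact (abs_add_le _ _).trans (add_le_add (h₁.b1 s) (h₂.b1 s))

lemma LamC_add {χ : ℝ → ℝ} (hχ : IsCut χ) (hM : ModA ρ C h χ) {κ₁ κ₂ : ℝ} {k₁ k₂ : ℝ → ℝ}
    (h₁ : KB κ₁ k₁) (h₂ : KB κ₂ k₂) {v : ℝ × ℝ → ℝ} (hv : InC ρ C h v) :
    LamC ρ (fun s => k₁ s + k₂ s) χ v = LamC ρ k₁ χ v + LamC ρ k₂ χ v := by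
  have t1 := tendsto_LamC hM (KB.add h₁ h₂) hv
  have t2 := (tendsto_LamC hM h₁ hv).add (tendsto_LamC hM h₂ hv)
  refine tendsto_nhds_unique t1 (t2.congr' ?_)
  filter_upwards [self_mem_nhdsWithin] with ε hε
  exact (Lam_add h₁.smooth.continuous h₂.smooth.continuous hχ (moll_smooth hε hv.locInt)).symm

/-! ### the densities -/

/-- half the indicator. -/
noncomputable def hz (Z : Set ℝ) : ℝ → ℝ := Z.indicator fun _ => (1 : ℝ) / 2

lemma hz_dens {Z : Set ℝ} (hZ : MeasurableSet Z) (hf : volume Z ≠ ∞) : Dens (hz Z) := by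
  refine ⟨measurable_const.indicator hZ, ?_, fun s => ?_⟩
  · unfold hz
    rw [integrable_indicator_iff hZ]
    exact integrableOn_const hf (by finiteness)
  · unfold hz
    by_cases hs : s ∈ Z
    · rw [Set.indicator_of_mem hs, abs_of_pos] <;> norm_num
    · rw [Set.indicator_of_notMem hs]; simp

lemma hz_nonneg (Z : Set ℝ) (t : ℝ) : 0 ≤ hz Z t :=
  Set.indicator_nonneg (fun _ _ => by norm_num) _

lemma hz_le (Z : Set ℝ) (t : ℝ) : hz Z t ≤ 1 / 2 :=
  Set.indicator_le' (fun _ _ => le_rfl) (fun _ _ => by norm_num) _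

lemma hz_int (Z : Set ℝ) (hZ : MeasurableSet Z) (f : ℝ → ℝ) :
    ∫ t, hz Z t * f t = 1 / 2 * ∫ t in Z, f t := by
  rw [← integral_indicator hZ, ← integral_const_mul]
  congr 1; funext t
  unfold hz
  by_cases ht : t ∈ Z
  · rw [Set.indicator_of_mem ht, Set.indicator_of_mem ht]
  · rw [Set.indicator_of_notMem ht, Set.indicator_of_notMem ht]; simp

lemma kth_int_left {δ : ℝ} (hδ : 0 < δ) (s : ℝ) : ∫ t₀, kth δ t₀ s = 2 := by
  unfold kth
  rw [integral_const_mul, integral_sub_left_eq_self (fun y => etaS δ y) volume s, etaS_int hδ]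
  norm_num

lemma kth_integrable_left {δ : ℝ} (hδ : 0 < δ) (s : ℝ) : Integrable fun t₀ => kth δ t₀ s := by
  unfold kth
  have : Integrable (etaS δ) :=
    (etaS_smooth δ).continuous.integrable_of_hasCompactSupport (etaS_cpt hδ)
  exact (this.comp_sub_left s).const_mul 2

lemma kth_integrable_right {δ : ℝ} (hδ : 0 < δ) (t₀ : ℝ) : Integrable fun s => kth δ t₀ s := by
  unfold kth
  have : Integrable (etaS δ) :=
    (etaS_smooth δ).continuous.integrable_of_hasCompactSupport (etaS_cpt hδ)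
  exact (this.comp_sub_right t₀).const_mul 2

lemma kth_int_right {δ : ℝ} (hδ : 0 < δ) (t₀ : ℝ) : ∫ s, kth δ t₀ s = 2 := by
  unfold kth
  rw [integral_const_mul, integral_sub_right_eq_self (fun y => etaS δ y) t₀, etaS_int hδ]
  norm_num

lemma Kz_bounds {δ : ℝ} (hδ : 0 < δ) {Z : Set ℝ} (hZ : MeasurableSet Z) (hf : volume Z ≠ ∞)
    (s : ℝ) : 0 ≤ Kz δ (hz Z) s ∧ Kz δ (hz Z) s ≤ 1 := by
  constructor
  · exact integral_nonneg fun t => mul_nonneg (hz_nonneg _ _) (kth_nonneg hδ _ _)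
  · unfold Kz
    obtain ⟨B, hB0, hB⟩ := kth_bound hδ
    have i1 : Integrable fun t => hz Z t * kth δ t s :=
      integrable_dens (hz_dens hZ hf)
        ((kth_cont2 δ).comp (g := fun p : ℝ × ℝ => kth δ p.1 p.2)
          (f := fun t : ℝ => ((t, s) : ℝ × ℝ)) (by fun_prop)) (fun t => hB t s)
    have h1 : ∫ t, hz Z t * kth δ t s ≤ ∫ t, 1 / 2 * kth δ t s :=
      integral_mono i1 ((kth_integrable_left hδ s).const_mul _)
        fun t => mul_le_mul_of_nonneg_right (hz_le Z t) (kth_nonneg hδ _ _)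
    rw [integral_const_mul, kth_int_left hδ] at h1
    linarith

lemma Kz_integral_le {δ : ℝ} (hδ : 0 < δ) {Z : Set ℝ} (hZ : MeasurableSet Z) (hf : volume Z ≠ ∞)
    {M : ℝ} (hM : 0 ≤ M) : ∫ s in (0 : ℝ)..M, Kz δ (hz Z) s ≤ (volume Z).toReal := by
  have h1 := swap1 hδ (hz_dens hZ hf) continuous_id M
  simp only [id] at h1
  rw [h1]
  have hb : ∀ t₀, 0 ≤ ∫ s in (0 : ℝ)..M, kth δ t₀ s ∧ ∫ s in (0 : ℝ)..M, kth δ t₀ s ≤ 2 := by
    intro t₀
    constructor
    · exact intervalIntegral.integral_nonneg hM fun s _ => kth_nonneg hδ _ _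
    · rw [intervalIntegral.integral_of_le hM, ← kth_int_right hδ t₀]
      exact setIntegral_le_integral (kth_integrable_right hδ t₀)
        (Eventually.of_forall fun s => kth_nonneg hδ _ _)
  rw [hz_int Z hZ]
  have hfin : IsFiniteMeasure (volume.restrict Z) := ⟨by
    rw [Measure.restrict_apply_univ]; exact lt_top_iff_ne_top.2 hf⟩
  have hc : Continuous fun t₀ => ∫ s in (0 : ℝ)..M, kth δ t₀ s :=
    (KK_kth_cont δ).comp (g := fun y : ℝ × ℝ => KK (kth δ y.1) y.2)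
      (f := fun t : ℝ => ((t, M) : ℝ × ℝ)) (by fun_prop)
  have hi : IntegrableOn (fun t₀ => ∫ s in (0 : ℝ)..M, kth δ t₀ s) Z := by
    refine (integrable_const (2 : ℝ)).mono' hc.aestronglyMeasurable
      (Eventually.of_forall fun t => ?_)
    rw [Real.norm_eq_abs, abs_of_nonneg (hb t).1]
    exact (hb t).2
  have h2 : ∫ t₀ in Z, ∫ s in (0 : ℝ)..M, kth δ t₀ s ≤ ∫ _ in Z, (2 : ℝ) :=
    integral_mono hi (integrable_const _) fun t => (hb t).2
  rw [setIntegral_const, smul_eq_mul] at h2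
  have h3 : volume.real Z = (volume Z).toReal := rfl
  rw [h3] at h2
  linarith

/-- set bounds. -/
lemma set_bound (hρ : 0 < ρ) {χ : ℝ → ℝ} (hχ : IsCut χ) (hM : ModA ρ C h χ) {M : ℝ} (hM0 : 0 ≤ M)
    (hs : ∀ (κ : ℝ) (k : ℝ → ℝ), KB κ k → (∀ s, 0 ≤ k s ∧ k s ≤ 1) → ∀ v,
      InC ρ C h v → |LamC ρ k χ v| ≤ M * Real.sqrt (∫ s in (0 : ℝ)..M, k s))
    {δ : ℝ} (hδ : 0 < δ) {T : ℝ} {Z : Set ℝ} (hZ : MeasurableSet Z) (hZT : Z ⊆ Set.Icc 0 T)
    {v : ℝ × ℝ → ℝ} (hv : InC ρ C h v) :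
    |∫ t in Z, LamC ρ (kth δ t) χ v| ≤ 2 * (M * Real.sqrt (volume Z).toReal) := by
  have hf : volume Z ≠ ∞ := by
    refine ne_top_of_le_ne_top ?_ (measure_mono hZT)
    rw [Real.volume_Icc]; exact ENNReal.ofReal_ne_top
  have hd := hz_dens hZ hf
  obtain ⟨κ, hκ⟩ := Kz_KB hδ hd
  have h1 := hs κ _ hκ (Kz_bounds hδ hZ hf) v hv
  have h2 := LamC_Kz hρ hχ hM hδ hd ⟨|T|, fun t ht => by
    unfold hz
    apply Set.indicator_of_notMem
    intro hmem
    have := hZT hmem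
    rw [abs_of_nonneg this.1] at ht
    have := le_abs_self T
    linarith [(hZT hmem).2]⟩ hv
  rw [hz_int Z hZ] at h2
  rw [h2, abs_mul, abs_of_pos (by norm_num : (0 : ℝ) < 1 / 2)] at h1
  have h3 : M * Real.sqrt (∫ s in (0 : ℝ)..M, Kz δ (hz Z) s) ≤ M * Real.sqrt (volume Z).toReal :=
    mul_le_mul_of_nonneg_left (Real.sqrt_le_sqrt (Kz_integral_le hδ hZ hf hM0)) hM0
  linarith

/-- L1 bounds over sets. -/
lemma set_bound_abs (hρ : 0 < ρ) {χ : ℝ → ℝ} (hχ : IsCut χ) (hM : ModA ρ C h χ) {M : ℝ}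
    (hM0 : 0 ≤ M)
    (hs : ∀ (κ : ℝ) (k : ℝ → ℝ), KB κ k → (∀ s, 0 ≤ k s ∧ k s ≤ 1) → ∀ v,
      InC ρ C h v → |LamC ρ k χ v| ≤ M * Real.sqrt (∫ s in (0 : ℝ)..M, k s))
    {δ : ℝ} (hδ : 0 < δ) {T : ℝ} {Z : Set ℝ} (hZ : MeasurableSet Z) (hZT : Z ⊆ Set.Icc 0 T)
    {v1 v2 : ℝ × ℝ → ℝ} (hv1 : InC ρ C h v1) (hv2 : InC ρ C h v2) :
    ∫ t in Z, |LamC ρ (kth δ t) χ v1 - LamC ρ (kth δ t) χ v2|
      ≤ 8 * (M * Real.sqrt (volume Z).toReal) := by
  set a : ℝ → ℝ := fun t => LamC ρ (kth δ t) χ v1 - LamC ρ (kth δ t) χ v2 with ha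
  have c1 := LamC_kth_cont hχ hM hδ hv1
  have c2 := LamC_kth_cont hχ hM hδ hv2
  have hac : Continuous a := c1.sub c2
  have hf : volume Z ≠ ∞ := by
    refine ne_top_of_le_ne_top ?_ (measure_mono hZT)
    rw [Real.volume_Icc]; exact ENNReal.ofReal_ne_top
  have hio : ∀ f : ℝ → ℝ, Continuous f → ∀ W ⊆ Z, IntegrableOn f W := fun f hf W hW =>
    (hf.continuousOn.integrableOn_compact isCompact_Icc).mono_set (hW.trans hZT)
  set P : Set ℝ := {t | 0 ≤ a t} with hP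
  have hPm : MeasurableSet P := measurableSet_le measurable_const hac.measurable
  have hsub : ∀ W ⊆ Z, MeasurableSet W → |∫ t in W, a t| ≤ 4 * (M * Real.sqrt (volume Z).toReal) := by
    intro W hW hWm
    have e1 : ∫ t in W, a t = (∫ t in W, LamC ρ (kth δ t) χ v1) - ∫ t in W, LamC ρ (kth δ t) χ v2 :=
      integral_sub (hio _ c1 W hW) (hio _ c2 W hW)
    have b1 := set_bound hρ hχ hM hM0 hs hδ hWm (hW.trans hZT) hv1
    have b2 := set_bound hρ hχ hM hM0 hs hδ hWm (hW.trans hZT) hv2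
    have b3 : M * Real.sqrt (volume W).toReal ≤ M * Real.sqrt (volume Z).toReal :=
      mul_le_mul_of_nonneg_left (Real.sqrt_le_sqrt
        (ENNReal.toReal_mono hf (measure_mono hW))) hM0
    rw [e1]
    have := abs_sub (∫ t in W, LamC ρ (kth δ t) χ v1) (∫ t in W, LamC ρ (kth δ t) χ v2)
    linarith
  have e2 : ∫ t in Z, |a t| = (∫ t in Z ∩ P, |a t|) + ∫ t in Z \ P, |a t| :=
    (integral_inter_add_sdiff hPm (hio _ hac.abs Z subset_rfl)).symm
  have e3 : ∫ t in Z ∩ P, |a t| = ∫ t in Z ∩ P, a t :=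
    setIntegral_congr_fun (hZ.inter hPm) fun t ht => abs_of_nonneg ht.2
  have e4 : ∫ t in Z \ P, |a t| = - ∫ t in Z \ P, a t := by
    rw [← integral_neg]
    refine setIntegral_congr_fun (hZ.diff hPm) fun t ht => ?_
    have : a t < 0 := not_le.1 ht.2
    exact abs_of_neg this
  have b1 := hsub (Z ∩ P) Set.inter_subset_left (hZ.inter hPm)
  have b2 := hsub (Z \ P) Set.sdiff_subset (hZ.diff hPm)
  rw [e2, e3, e4]
  have b3 := (abs_le.1 b1).2
  have b4 := (abs_le.1 b2).1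
  linarith

lemma Kz_eq_one {δ : ℝ} (hδ : 0 < δ) {T s : ℝ} (h1 : δ ≤ s) (h2 : s ≤ T - δ) :
    Kz δ (hz (Set.Icc 0 T)) s = 1 := by
  unfold Kz
  have e : ∀ t₀, hz (Set.Icc 0 T) t₀ * kth δ t₀ s = 1 / 2 * kth δ t₀ s := by
    intro t₀
    by_cases ht : t₀ ∈ Set.Icc 0 T
    · unfold hz
      rw [Set.indicator_of_mem ht]
    · have : kth δ t₀ s = 0 := by
        unfold kth
        rw [etaS_zero hδ, mul_zero]
        by_cases h3 : t₀ < 0
        · rw [abs_of_pos (by linarith)]; linarith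
        · have h4 : T < t₀ := by
            by_contra hcon
            exact ht ⟨not_lt.1 h3, not_lt.1 hcon⟩
          rw [abs_of_neg (by linarith)]; linarith
      rw [this, mul_zero, mul_zero]
  simp_rw [e]
  rw [integral_const_mul, kth_int_left hδ]
  norm_num

lemma compl_int {δ M : ℝ} (hδ : 0 < δ) (hM : 0 ≤ M) {f : ℝ → ℝ} (hf : Continuous f)
    (h1 : ∀ s, f s ≤ 1) (h2 : ∀ s, δ ≤ s → s ≤ M → f s = 0) :
    ∫ s in (0 : ℝ)..M, f s ≤ δ := by
  rcases le_total M δ with h3 | h3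
  · have : ∫ s in (0 : ℝ)..M, f s ≤ ∫ _ in (0 : ℝ)..M, (1 : ℝ) :=
      intervalIntegral.integral_mono_on hM (hf.intervalIntegrable _ _)
        intervalIntegrable_const fun x _ => h1 x
    simp at this
    linarith
  · have e1 := intervalIntegral.integral_add_adjacent_intervals
      (hf.intervalIntegrable (μ := volume) 0 δ) (hf.intervalIntegrable (μ := volume) δ M)
    have e2 : ∫ s in δ..M, f s = 0 := by
      have : ∫ s in δ..M, f s = ∫ _ in δ..M, (0 : ℝ) :=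
        intervalIntegral.integral_congr fun x hx => by
          rw [Set.uIcc_of_le h3] at hx
          exact h2 x hx.1 hx.2
      rw [this]; simp
    have e3 : ∫ s in (0 : ℝ)..δ, f s ≤ ∫ _ in (0 : ℝ)..δ, (1 : ℝ) :=
      intervalIntegral.integral_mono_on hδ.le (hf.intervalIntegrable _ _)
        intervalIntegrable_const fun x _ => h1 x
    simp at e3
    linarith

/-- (G3) the functional with weight 1 is constant on the limit set. -/
theorem lim_const (hh : IndH ρ C h) (hT : Traj ρ C h vh) {χ : ℝ → ℝ} (hχ : IsCut χ)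
    (hχ1 : ∫ x, χ x = 1) (hM : ModA ρ C h χ) (h3 : A3A ρ C h χ) (hmono : MonoA ρ C h χ)
    (hrig : RigidA ρ C h χ) (hE : ∀ᵐ t₀ : ℝ, 0 < t₀ → FinVal ρ C h t₀)
    {v1 v2 : ℝ × ℝ → ℝ} (hv1 : LimSet ρ C h vh v1) (hv2 : LimSet ρ C h vh v2) :
    LamC ρ (fun _ => 1) χ v1 = LamC ρ (fun _ => 1) χ v2 := by
  have hρ := hh.rho_pos
  obtain ⟨M, hM0, hs⟩ := small hh hχ hM h3
  set T := M + 2 with hTdef
  set δ : ℕ → ℝ := fun n => 1 / ((n : ℝ) + 1) with hδdef
  have hδ0 : ∀ n, 0 < δ n := fun n => by rw [hδdef]; positivity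
  have hδ1 : ∀ n, δ n ≤ 1 := fun n => by
    rw [hδdef]
    simp only
    rw [div_le_one (by positivity)]
    have : (0 : ℝ) ≤ n := Nat.cast_nonneg n
    linarith
  have hδl : Tendsto δ atTop (𝓝 0) := tendsto_one_div_add_atTop_nhds_zero_nat
  set a : ℕ → ℝ → ℝ := fun n t => LamC ρ (kth (δ n) t) χ v1 - LamC ρ (kth (δ n) t) χ v2 with ha
  have hac : ∀ n, Continuous (a n) := fun n =>
    (LamC_kth_cont hχ hM (hδ0 n) hv1.1).sub (LamC_kth_cont hχ hM (hδ0 n) hv2.1)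
  set μ : Measure ℝ := volume.restrict (Set.Icc 0 T) with hμ
  have hfin : IsFiniteMeasure μ := ⟨by
    rw [hμ, Measure.restrict_apply_univ, Real.volume_Icc]; exact ENNReal.ofReal_lt_top⟩
  -- almost everywhere convergence
  have hae : ∀ᵐ t ∂μ, Tendsto (fun n => a n t) atTop (𝓝 ((fun _ : ℝ => (0 : ℝ)) t)) := by
    have h0 : ∀ᵐ t : ℝ, t ≠ 0 := by
      have : (volume : Measure ℝ) {0} = 0 := Real.volume_singleton
      exact compl_mem_ae_iff.2 this
    have h4 : ∀ᵐ t ∂μ, t ∈ Set.Icc 0 T := ae_restrict_mem measurableSet_Icc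
    filter_upwards [h4, ae_restrict_of_ae h0, ae_restrict_of_ae hE] with t ht ht0 htE
    have hF := htE (lt_of_le_of_ne ht.1 (Ne.symm ht0))
    rw [Metric.tendsto_atTop]
    intro e he
    obtain ⟨δ₁, hδ₁, hosc⟩ := osc_small hh hT hχ hχ1 hM h3 hmono hrig hF
      (show (0 : ℝ) < e / 2 by positivity)
    have h5 : ∀ᶠ n in atTop, δ n < δ₁ := hδl.eventually_lt_const hδ₁
    obtain ⟨N, hN⟩ := eventually_atTop.1 h5
    refine ⟨N, fun n hn => ?_⟩
    rw [Real.dist_eq, sub_zero, ha]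
    simp only
    have b1 := hosc (δ n) (hδ0 n) (hN n hn) v1 v2 hv1 hv2
    have b2 := hosc (δ n) (hδ0 n) (hN n hn) v2 v1 hv2 hv1
    rw [abs_lt]
    constructor <;> linarith
  -- integrability
  have hint : ∀ n, Integrable (a n) μ := fun n =>
    (hac n).continuousOn.integrableOn_compact isCompact_Icc
  -- uniform integrability
  have hui : UnifIntegrable a 1 μ := by
    intro ε hε
    set δ' := (ε / (8 * (M + 1))) ^ 2 with hδ'
    have hδ'0 : 0 < δ' := by positivity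
    refine ⟨δ', hδ'0, fun n s hs' hμs => ?_⟩
    set Z := s ∩ Set.Icc 0 T with hZ
    have hZm : MeasurableSet Z := hs'.inter measurableSet_Icc
    have hvZ : volume Z ≤ ENNReal.ofReal δ' := by
      rw [hμ, Measure.restrict_apply hs'] at hμs
      exact hμs
    have hb := set_bound_abs hρ hχ hM hM0 hs (hδ0 n) hZm
      (Set.inter_subset_right) hv1.1 hv2.1
    have hvr : (volume Z).toReal ≤ δ' := ENNReal.toReal_le_of_le_ofReal hδ'0.le hvZ
    have hsq : Real.sqrt (volume Z).toReal ≤ ε / (8 * (M + 1)) := by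
      rw [Real.sqrt_le_left (by positivity)]
      exact hvr
    have hbε : ∫ t in Z, |a n t| ≤ ε := by
      refine hb.trans ?_
      calc 8 * (M * Real.sqrt (volume Z).toReal) ≤ 8 * ((M + 1) * (ε / (8 * (M + 1)))) := by
            refine mul_le_mul_of_nonneg_left ?_ (by norm_num)
            exact mul_le_mul (by linarith) hsq (Real.sqrt_nonneg _) (by positivity)
        _ = ε := by field_simp
    rw [eLpNorm_one_eq_lintegral_enorm]
    have e1 : ∫⁻ x, ‖s.indicator (a n) x‖ₑ ∂μ = ENNReal.ofReal (∫ x, ‖s.indicator (a n) x‖ ∂μ) := by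
      rw [ofReal_integral_norm_eq_lintegral_enorm]
      exact (hint n).indicator hs'
    rw [e1]
    apply ENNReal.ofReal_le_ofReal
    have e2 : ∫ x, ‖s.indicator (a n) x‖ ∂μ = ∫ t in Z, |a n t| := by
      have : ∀ x, ‖s.indicator (a n) x‖ = s.indicator (fun t => |a n t|) x := by
        intro x
        by_cases hx : x ∈ s
        · rw [Set.indicator_of_mem hx, Set.indicator_of_mem hx, Real.norm_eq_abs]
        · rw [Set.indicator_of_notMem hx, Set.indicator_of_notMem hx, norm_zero]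
      simp_rw [this]
      rw [integral_indicator hs', hμ, Measure.restrict_restrict hs']
    rw [e2]
    exact hbε
  have hL := tendsto_Lp_finite_of_tendsto_ae (μ := μ) (p := 1) le_rfl ENNReal.one_ne_top
    (fun n => (hac n).aestronglyMeasurable) (MemLp.zero' : MemLp (fun _ : ℝ => (0 : ℝ)) 1 μ)
    hui hae
  have hI : Tendsto (fun n => ∫ t, a n t ∂μ) atTop (𝓝 (∫ _, (0 : ℝ) ∂μ)) := by
    refine tendsto_integral_of_L1 (fun _ : ℝ => (0 : ℝ)) aestronglyMeasurable_const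
      (Eventually.of_forall hint) ?_
    refine hL.congr fun n => ?_
    rw [eLpNorm_one_eq_lintegral_enorm]
    rfl
  rw [integral_zero] at hI
  -- comparison with weight 1
  have hfIcc : (volume : Measure ℝ) (Set.Icc 0 T) ≠ ∞ := by
    rw [Real.volume_Icc]; exact ENNReal.ofReal_ne_top
  have hd := hz_dens (measurableSet_Icc (a := (0 : ℝ)) (b := T)) hfIcc
  have hsupp : ∃ R : ℝ, ∀ t, R < |t| → hz (Set.Icc 0 T) t = 0 := by
    refine ⟨T, fun t ht => ?_⟩
    unfold hz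
    apply Set.indicator_of_notMem
    intro hmem
    rw [abs_of_nonneg hmem.1] at ht
    linarith [hmem.2]
  have hone : ∀ n, ∀ v, InC ρ C h v →
      |LamC ρ (fun _ => 1) χ v - LamC ρ (Kz (δ n) (hz (Set.Icc 0 T))) χ v|
        ≤ M * Real.sqrt (δ n) := by
    intro n v hv
    obtain ⟨κ, hκ⟩ := Kz_KB (hδ0 n) hd
    set K := Kz (δ n) (hz (Set.Icc 0 T)) with hK
    have hKb := Kz_bounds (hδ0 n) (measurableSet_Icc (a := (0 : ℝ)) (b := T)) hfIcc
    have hcomp : KB (1 + κ) (fun s => 1 - K s) := by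
      refine ⟨contDiff_const.sub hκ.smooth, fun s => ?_, fun s => ?_⟩
      · have := hκ.b0 s
        have h6 := abs_sub (1 : ℝ) (K s)
        rw [abs_one] at h6
        linarith
      · have e1 : HasDerivAt K (deriv K s) s := (hκ.smooth.differentiable (by simp) _).hasDerivAt
        have e3 : HasDerivAt (fun s => 1 - K s) (-(deriv K s)) s := e1.const_sub 1
        rw [e3.deriv, abs_neg]
        have := hκ.b1 s
        linarith
    have e1 : (fun _ : ℝ => (1 : ℝ)) = fun s => K s + (1 - K s) := by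
      funext s; ring
    have e2 := LamC_add hχ hM hκ hcomp hv
    rw [e1, e2, add_sub_cancel_left]
    refine (hs _ _ hcomp (fun s => ⟨by linarith [(hKb s).2], by linarith [(hKb s).1]⟩) v hv).trans ?_
    refine mul_le_mul_of_nonneg_left (Real.sqrt_le_sqrt ?_) hM0
    refine compl_int (hδ0 n) hM0 hcomp.smooth.continuous (fun s => by linarith [(hKb s).1]) ?_
    intro s h1 h2
    have : K s = 1 := Kz_eq_one (hδ0 n) h1 (by rw [hTdef]; linarith [hδ1 n])
    rw [this]; ring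
  have hdiff : ∀ n, LamC ρ (Kz (δ n) (hz (Set.Icc 0 T))) χ v1
      - LamC ρ (Kz (δ n) (hz (Set.Icc 0 T))) χ v2 = 1 / 2 * ∫ t, a n t ∂μ := by
    intro n
    rw [LamC_Kz hρ hχ hM (hδ0 n) hd hsupp hv1.1, LamC_Kz hρ hχ hM (hδ0 n) hd hsupp hv2.1,
      hz_int _ measurableSet_Icc, hz_int _ measurableSet_Icc, ← mul_sub]
    congr 1
    rw [hμ, ← integral_sub]
    · exact (LamC_kth_cont hχ hM (hδ0 n) hv1.1).continuousOn.integrableOn_compact isCompact_Icc
    · exact (LamC_kth_cont hχ hM (hδ0 n) hv2.1).continuousOn.integrableOn_compact isCompact_Icc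
  have hbound : ∀ n, |LamC ρ (fun _ => 1) χ v1 - LamC ρ (fun _ => 1) χ v2|
      ≤ |1 / 2 * ∫ t, a n t ∂μ| + 2 * (M * Real.sqrt (δ n)) := by
    intro n
    have b1 := abs_le.1 (hone n v1 hv1.1)
    have b2 := abs_le.1 (hone n v2 hv2.1)
    have b3 := hdiff n
    have b4 := abs_le.1 (le_refl |1 / 2 * ∫ t, a n t ∂μ|)
    rw [abs_le]
    constructor <;> linarith [b1.1, b1.2, b2.1, b2.2, b4.1, b4.2]
  have hlim0 : Tendsto (fun n => |1 / 2 * ∫ t, a n t ∂μ| + 2 * (M * Real.sqrt (δ n))) atTop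
      (𝓝 (|1 / 2 * 0| + 2 * (M * Real.sqrt 0))) := by
    have t1 := (hI.const_mul (1 / 2)).abs
    have t2 : Tendsto (fun n => Real.sqrt (δ n)) atTop (𝓝 (Real.sqrt 0)) :=
      (Real.continuous_sqrt.tendsto 0).comp hδl
    exact t1.add ((t2.const_mul M).const_mul 2)
  have hle := ge_of_tendsto' hlim0 hbound
  simp at hle
  linarith

lemma eta_cut : IsCut eta := ⟨eta_smooth, eta_cpt, eta_nonneg⟩

/-- BLOCK G. -/
theorem main (hh : IndH ρ C h) (hT : Traj ρ C h vh) (hM : ModA ρ C h eta)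
    (h3 : A3A ρ C h eta) (hmono : MonoA ρ C h eta) (hrig : RigidA ρ C h eta)
    (hE : ∀ᵐ t₀ : ℝ, 0 < t₀ → FinVal ρ C h t₀)
    {X : ℕ → ℝ} (hX : Tendsto X atTop atTop) {v : ℝ × ℝ → ℝ} (hv : InC ρ C h v)
    (hc : ConvD (fun j => shift (X j) vh) v) : ∀ x t, v (x, t) = v (0, t) := by
  have hL : LimSet ρ C h vh v := ⟨hv, X, hX, hc⟩
  refine hrig v hv fun Y => ?_
  exact lim_const hh hT eta_cut eta_int hM h3 hmono hrig hE (LimSet.shift hT hL Y) hL

end Pool.Agent.Helper46.FrG
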